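import Pool.Agent.Helper76.CDET.Loop

/-!
# Decision trees of zero tests

A decision tree whose nodes are labelled by `N` Boolean questions.
-/

set_option autoImplicit false

namespace Pool.AD

open MvPolynomial Pool.Agent.Helper76.CDET

/-- decision trees over `N` questions -/
inductive DT (N : ℕ) : Type
  | leaf (b : Bool) : DT N
  | node (v : Fin N) (t0 t1 : DT N) : DT N

namespace DT

variable {N : ℕ}

/-- depth: the largest number of questions on a path -/
def depth : DT N → ℕ
  | leaf _ => 0
  | node _ t0 t1 => max (depth t0) (depth t1) + 1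

/-- the answer of the tree, for the answers `a` to the questions -/
def eval (a : Fin N → Bool) : DT N → Bool
  | leaf b => b
  | node v t0 t1 => if a v = true then eval a t1 else eval a t0

/-- the questions on the path with answer yes -/
def ones (a : Fin N → Bool) : DT N → Finset (Fin N)
  | leaf _ => ∅
  | node v t0 t1 => if a v = true then insert v (ones a t1) else ones a t0

/-- all possible sets of questions with answer yes on a path -/
def allOnes : DT N → Finset (Finset (Fin N))
  | leaf _ => {∅}
  | node v t0 t1 => allOnes t0 ∪ (allOnes t1).image fun U => insert v U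

theorem ones_mem (a : Fin N → Bool) (t : DT N) : ones a t ∈ allOnes t := by
  induction t with
  | leaf b => simp [ones, allOnes]
  | node v t0 t1 h0 h1 =>
    rw [ones, allOnes, Finset.mem_union, Finset.mem_image]
    split_ifs
    · exact Or.inr ⟨_, h1, rfl⟩
    · exact Or.inl h0

theorem card_allOnes (t : DT N) : (allOnes t).card ≤ 2 ^ depth t := by
  induction t with
  | leaf b => simp [allOnes, depth]
  | node v t0 t1 h0 h1 =>
    rw [allOnes, depth, pow_succ]
    refine (Finset.card_union_le _ _).trans ?_
    have e0 : (allOnes t0).card ≤ 2 ^ max (depth t0) (depth t1) :=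
      h0.trans (Nat.pow_le_pow_right (by norm_num) (le_max_left _ _))
    have e1 : ((allOnes t1).image fun U => insert v U).card ≤ 2 ^ max (depth t0) (depth t1) :=
      Finset.card_image_le.trans
        (h1.trans (Nat.pow_le_pow_right (by norm_num) (le_max_right _ _)))
    omega

theorem card_ones (a : Fin N → Bool) (t : DT N) : (ones a t).card ≤ depth t := by
  induction t with
  | leaf b => simp [ones, depth]
  | node v t0 t1 h0 h1 =>
    rw [ones, depth]
    split_ifs
    · refine (Finset.card_insert_le _ _).trans (Nat.add_le_add_right (h1.trans ?_) 1)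
      exact le_max_right _ _
    · exact (h0.trans (le_max_left _ _)).trans (Nat.le_succ _)

/-- fewer positive answers, but the same on the path -/
theorem eval_of_ones (a a' : Fin N → Bool) (t : DT N) (h : ∀ v, a' v = true → a v = true)
    (h1 : ∀ v ∈ ones a t, a' v = true) : eval a' t = eval a t := by
  induction t with
  | leaf b => rfl
  | node v t0 t1 ih0 ih1 =>
    rw [eval, eval]
    by_cases hv : a v = true
    · rw [ones, if_pos hv] at h1
      rw [if_pos hv, if_pos (h1 v (Finset.mem_insert_self _ _))]
      exact ih1 fun u hu => h1 u (Finset.mem_insert_of_mem hu)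
    · have hv' : ¬ a' v = true := fun h' => hv (h v h')
      rw [ones, if_neg hv] at h1
      rw [if_neg hv, if_neg hv']
      exact ih0 h1

theorem ones_pos (a : Fin N → Bool) (t : DT N) (v : Fin N) (hv : v ∈ ones a t) : a v = true := by
  induction t with
  | leaf b => simp [ones] at hv
  | node u t0 t1 ih0 ih1 =>
    rw [ones] at hv
    split_ifs at hv with h
    · rcases Finset.mem_insert.1 hv with rfl | h2
      · exact h
      · exact ih1 h2
    · exact ih0 hv

end DT

section
variable {F : Type} [Field F] {V Ya : Type} [DecidableEq V] {N : ℕ}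

/-- the answers to the zero tests on the input `S` -/
noncomputable def ans (f : Fin N → MvPolynomial (V ⊕ Ya) F) (S : Finset V) (v : Fin N) : Bool :=
  open Classical in decide (restr S (f v) ≠ 0)

theorem ans_true (f : Fin N → MvPolynomial (V ⊕ Ya) F) (S : Finset V) (v : Fin N) :
    ans f S v = true ↔ restr S (f v) ≠ 0 := by
  unfold ans
  simp

theorem restr_ne_mono [Fintype V] (f : MvPolynomial (V ⊕ Ya) F) {S S' : Finset V} (h : S ⊆ S')
    (h0 : restr S f ≠ 0) : restr S' f ≠ 0 := by
  intro h1
  apply h0
  have h2 : restr S (restr S' f) = restr S f := by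
    rw [restr_restr, Finset.inter_eq_left.2 h]
  rw [← h2, h1]
  exact map_zero _

theorem ans_mono [Fintype V] (f : Fin N → MvPolynomial (V ⊕ Ya) F) {S S' : Finset V} (h : S ⊆ S')
    (v : Fin N) (hv : ans f S v = true) : ans f S' v = true := by
  rw [ans_true] at hv ⊢
  exact restr_ne_mono _ h hv

theorem restr_prod (f : Fin N → MvPolynomial (V ⊕ Ya) F) (S : Finset V) (U : Finset (Fin N)) :
    restr S (∏ v ∈ U, f v) = ∏ v ∈ U, restr S (f v) := by
  rw [← restrHom_apply, map_prod]
  rfl

theorem restr_prod_ne_zero (f : Fin N → MvPolynomial (V ⊕ Ya) F) (S : Finset V)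
    (U : Finset (Fin N)) : restr S (∏ v ∈ U, f v) ≠ 0 ↔ ∀ v ∈ U, ans f S v = true := by
  rw [restr_prod, Finset.prod_ne_zero_iff]
  simp only [ans_true]

/-- THE PRODUCT: if the product of the tests with answer yes does not vanish on a smaller input,
the tree gives the same answer -/
theorem eval_of_prod [Fintype V] (f : Fin N → MvPolynomial (V ⊕ Ya) F) (t : DT N) {S S' : Finset V}
    (h : S ⊆ S') (h0 : restr S (∏ v ∈ t.ones (ans f S'), f v) ≠ 0) :
    t.eval (ans f S) = t.eval (ans f S') :=
  DT.eval_of_ones _ _ t (fun v hv => ans_mono f h v hv) ((restr_prod_ne_zero f S _).1 h0)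

/-- a chain changes the answers at most `N` times -/
theorem chain_changes [Fintype V] (f : Fin N → MvPolynomial (V ⊕ Ya) F) (J : ℕ)
    (S : ℕ → Finset V) (hS : ∀ j, S j ⊆ S (j + 1)) :
    ((Finset.range J).filter fun j => ans f (S j) ≠ ans f (S (j + 1))).card ≤ N := by
  classical
  have hmono : ∀ i j, i ≤ j → S i ⊆ S j := fun i j h =>
    monotone_nat_of_le_succ (f := S) (fun j => hS j) h
  have hch : ∀ j, ans f (S j) ≠ ans f (S (j + 1)) →
      ∃ v, ans f (S j) v = false ∧ ans f (S (j + 1)) v = true := by
    intro j hj
    by_contra hcon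
    push Not at hcon
    apply hj
    funext v
    have h1 := hcon v
    have h2 := ans_mono f (hS j) v
    cases h3 : ans f (S j) v <;> cases h4 : ans f (S (j + 1)) v
    · rfl
    · exact absurd h4 (h1 h3)
    · rw [h2 h3] at h4
      exact absurd h4 (by simp)
    · rfl
  set C := (Finset.range J).filter fun j => ans f (S j) ≠ ans f (S (j + 1)) with hC
  let g : C → Fin N := fun j => (hch j.1 (Finset.mem_filter.1 j.2).2).choose
  have hg : ∀ j : C, ans f (S j.1) (g j) = false ∧ ans f (S (j.1 + 1)) (g j) = true := fun j =>
    (hch j.1 (Finset.mem_filter.1 j.2).2).choose_spec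
  have hinj : Function.Injective g := by
    intro i j hij
    by_contra hne
    have hne' : i.1 ≠ j.1 := fun h => hne (Subtype.ext h)
    rcases Nat.lt_or_gt_of_ne hne' with h | h
    · have h1 := (hg i).2
      have h2 := (hg j).1
      rw [← hij] at h2
      have h3 := ans_mono f (hmono (i.1 + 1) j.1 h) (g i) h1
      rw [h3] at h2
      exact absurd h2 (by simp)
    · have h1 := (hg j).2
      have h2 := (hg i).1
      rw [hij] at h2
      have h3 := ans_mono f (hmono (j.1 + 1) i.1 h) (g j) h1
      rw [h3] at h2
      exact absurd h2 (by simp)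
  have := Fintype.card_le_of_injective g hinj
  rw [Fintype.card_coe, Fintype.card_fin] at this
  exact this

end

end Pool.AD
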