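import Pool.Agent.Helper34.AD.Defs
import Pool.Agent.Helper10.AD.Tree
import Pool.Agent.Helper10.GT.RandReal
import Pool.Agent.Helper76.RT.CoreDet
import Pool.Agent.Helper64.ADP.Cell

/-!
# The machine for decision trees of zero tests, random gadgets with cells
-/

set_option autoImplicit false
set_option linter.unusedSectionVars false

namespace Pool.AD

open Finset hiding sup
open MvPolynomial Pool.SDL Pool.Agent.SDet Pool.Agent.Helper76 Pool.Agent.Helper76.CDET Pool.GT
open Pool.RT (Pr Pr_eq)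
open scoped ENNReal BigOperators

/-- `exists_value` for a nonempty type -/
theorem exists_value' {C K : Type} [DecidableEq K] [Nonempty K] (G : Finset C) (d : C → K)
    (A : Finset K) (n : ℕ) (hA : A.card ≤ n) (hd : ∀ c ∈ G, d c ∈ A) :
    ∃ G' ⊆ G, ∃ k, (∀ c ∈ G', d c = k) ∧ G.card ≤ n * G'.card := by
  classical
  rcases G.eq_empty_or_nonempty with hG | ⟨c0, hc0⟩
  · subst hG
    exact ⟨∅, Finset.Subset.refl _, Classical.arbitrary K,
      fun c hc => absurd hc (Finset.notMem_empty c), by simp⟩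
  · by_contra hcon
    push Not at hcon
    have h1 : ∀ k ∈ A, n * (G.filter fun c => d c = k).card < G.card := fun k _ =>
      hcon _ (Finset.filter_subset _ _) k fun c hc => (Finset.mem_filter.1 hc).2
    have h2 : G.card = ∑ k ∈ A, (G.filter fun c => d c = k).card :=
      Finset.card_eq_sum_card_fiberwise fun c hc => hd c hc
    have h3 : n * G.card < n * G.card := by
      calc n * G.card = ∑ k ∈ A, n * (G.filter fun c => d c = k).card := by
            rw [← Finset.mul_sum, ← h2]
        _ < ∑ _k ∈ A, G.card := Finset.sum_lt_sum_of_nonempty ⟨d c0, hd c0 hc0⟩ fun k hk => h1 k hk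
        _ = A.card * G.card := by rw [Finset.sum_const, smul_eq_mul]
        _ ≤ n * G.card := Nat.mul_le_mul_right _ hA
    exact lt_irrefl _ h3

/-- the element number `z` of the cell -/
def zx {D l B : ℕ} (c : Cw D l) (z : ((Fin D × Bool) × Fin l) × Fin B) :
    ((Fin D × Bool) × Fin l) × (Bool × Fin B) := (z.1, (c z.1.1 z.1.2, z.2))

theorem zx_mem {D l B : ℕ} (c : Cw D l) (z : ((Fin D × Bool) × Fin l) × Fin B) :
    zx c z ∈ Mw B c := by
  rw [mem_Mw]
  rfl

section
variable {F : Type} [Field F] {V Ya : Type} [DecidableEq V] [Fintype V]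

/-- THE MACHINE for random decision trees of zero tests and random gadgets -/
theorem adapt_cell {I : Type} [Fintype I] (w : I → ℝ) (hw0 : ∀ i, 0 ≤ w i)
    (hw1 : ∑ i, w i = 1) {N h : ℕ} (t : I → DT N) (ht : ∀ i, (t i).depth ≤ h)
    (f : I → Fin N → MvPolynomial (V ⊕ Ya) F) {P : Finset V → Prop}
    {J D l B : ℕ} (hJ : 1 ≤ J) (hD : 1 ≤ D) (hl : 1 ≤ l) (hB : 1 ≤ B)
    (G : I → CellGadget P J D l B) (ε1 ε2 κ : ℝ)
    (hyes : ∀ (c : Ch J D l) (j : ℕ), j ≤ J →
      Pr w (fun i => (t i).eval (ans (f i) ((G i).S c j)) = false) ≤ ε1)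
    (hno : ∀ (c : Ch J D l) (j : Fin J), ∀ x ∈ Mw B (c j),
      Pr w (fun i => (t i).eval (ans (f i) ((G i).S c (j.1 + 1) \ {(G i).X j x})) = true) ≤ ε2)
    (ν : I → Finset V → (V ⊕ Ya) →₀ ℕ)
    (hν : ∀ i S, ν i S ∈ (∏ v ∈ (t i).ones (ans (f i) S), f i v).support ∧ CDET.sup (ν i S) ⊆ S)
    (L : ℕ) (hk : ∀ (c : Ch J D l) (j : Fin J),
      Pr w (fun i => L < ∑ y, ν i ((G i).S c j.1) (Sum.inl ((G i).Y j y))) ≤ κ)
    (β : ℝ) (hβ : 0 < β) (τ T0 : ℕ) (hτ : (T0 : ℝ) + β * (2 * D * l * B) ≤ τ * B)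
    {l0 : ℕ} {Q R : ℝ≥0∞} (hQ : Q < 1)
    (hR : ∀ i, ∀ U : Finset (Fin N), U.card ≤ h → ∀ D' ≤ L,
      Pool.RT.SmallK (∏ v ∈ U, f i v) D' l0 Q R)
    (hT0 : (2 : ℝ≥0∞) ^ (2 * D * l) * Q ^ T0 ≤ 1 / 2) :
    Q ^ l0 * ENNReal.ofReal ((1 - (ε1 + ε2 / β + N / J + κ)) * 2 ^ (2 * D * l)) ≤
      2 * R * (2 ^ h * ((L + 1) * ∑ j ∈ Finset.range τ, (2 * D * l).choose j) : ℕ) := by
  classical
  have hJ0 : (0 : ℝ) < J := by exact_mod_cast hJ
  have hcardz : Fintype.card (((Fin D × Bool) × Fin l) × Fin B) = 2 * D * l * B := by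
    simp only [Fintype.card_prod, Fintype.card_fin, Fintype.card_bool]
    ring
  have hEpos : (0 : ℝ) < ((2 * D * l * B : ℕ) : ℝ) := by
    have : 0 < 2 * D * l * B := by positivity
    exact_mod_cast this
  have hneC : Nonempty (Cw D l) := ⟨fun _ _ => false⟩
  obtain ⟨bz, hbz⟩ : ∃ bz : I → Fin J → Ch J D l → Finset (((Fin D × Bool) × Fin l) × Fin B),
      ∀ i j c z, z ∈ bz i j c ↔
        (t i).eval (ans (f i) ((G i).S c (j.1 + 1) \ {(G i).X j (zx (c j) z)})) = true :=
    ⟨fun i j c => Finset.univ.filter fun z =>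
      (t i).eval (ans (f i) ((G i).S c (j.1 + 1) \ {(G i).X j (zx (c j) z)})) = true, by simp⟩
  have hsumPr : ∀ (p q : I → Prop), Pr w (fun i => p i ∨ q i) ≤ Pr w p + Pr w q := by
    intro p q
    rw [Pr_eq, Pr_eq, Pr_eq, ← Finset.sum_add_distrib]
    refine Finset.sum_le_sum fun i _ => ?_
    rw [← mul_add]
    refine mul_le_mul_of_nonneg_left ?_ (hw0 i)
    by_cases e1 : p i <;> by_cases e2 : q i <;> simp [e1, e2]
  -- a good index and a good cell
  obtain ⟨i, j, γ, G1, hG1, hGood⟩ := Pool.ADP.exists_cell (C := Cw D l) (J := J) hJ w hw0 hw1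
    (fun i j (c : Ch J D l) => (t i).eval (ans (f i) ((G i).S c (j.1 + 1))) = false ∨
      (ans (f i) ((G i).S c j.1) ≠ ans (f i) ((G i).S c (j.1 + 1)) ∨
      (β * (2 * D * l * B : ℕ) < ((bz i j c).card : ℝ) ∨
        L < ∑ y, ν i ((G i).S c j.1) (Sum.inl ((G i).Y j y)))))
    (ε1 + ε2 / β + N / J + κ) (by
    intro c
    have hb1 : ∀ j : Fin J, Pr w (fun i => (t i).eval (ans (f i) ((G i).S c (j.1 + 1))) = false) ≤
        ε1 := fun j => hyes c (j.1 + 1) (by have := j.2; omega)
    have hb3 : ∀ j : Fin J, Pr w (fun i => β * (2 * D * l * B : ℕ) < ((bz i j c).card : ℝ)) ≤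
        ε2 / β := by
      intro j
      rw [Pr_eq]
      have hE : ∑ i, w i * ((bz i j c).card : ℝ) ≤ ε2 * (2 * D * l * B : ℕ) := by
        have h4 : ∀ i, w i * ((bz i j c).card : ℝ) =
            ∑ z, w i * (if (t i).eval (ans (f i)
              ((G i).S c (j.1 + 1) \ {(G i).X j (zx (c j) z)})) = true then (1:ℝ) else 0) := by
          intro i
          rw [← Finset.mul_sum]
          congr 1
          have h5 : bz i j c = Finset.univ.filter fun z => (t i).eval (ans (f i)
              ((G i).S c (j.1 + 1) \ {(G i).X j (zx (c j) z)})) = true := by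
            ext z
            rw [hbz]
            simp
          rw [h5, Finset.card_filter, Nat.cast_sum]
          refine Finset.sum_congr rfl fun z _ => ?_
          split_ifs <;> simp
        rw [Finset.sum_congr rfl fun i _ => h4 i, Finset.sum_comm]
        calc ∑ z, ∑ i, w i * (if (t i).eval (ans (f i)
              ((G i).S c (j.1 + 1) \ {(G i).X j (zx (c j) z)})) = true then (1:ℝ) else 0)
            ≤ ∑ _z : ((Fin D × Bool) × Fin l) × Fin B, ε2 := by
              refine Finset.sum_le_sum fun z _ => ?_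
              have h5 := hno c j (zx (c j) z) (zx_mem (c j) z)
              rwa [Pr_eq] at h5
          _ = ε2 * (2 * D * l * B : ℕ) := by
              rw [Finset.sum_const, Finset.card_univ, hcardz, nsmul_eq_mul, mul_comm]
      have h6 := Pool.RT.markov w hw0 (fun i => (bz i j c).card)
        (ε2 * (2 * D * l * B : ℕ)) (β * (2 * D * l * B : ℕ)) (mul_pos hβ hEpos) hE
      rwa [mul_div_mul_right _ _ hEpos.ne'] at h6
    have hb2 : ∑ j : Fin J, Pr w (fun i => ans (f i) ((G i).S c j.1) ≠
        ans (f i) ((G i).S c (j.1 + 1))) ≤ N := by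
      simp_rw [Pr_eq]
      rw [Finset.sum_comm]
      have h7 : ∀ i, ∑ j : Fin J, w i * (if ans (f i) ((G i).S c j.1) ≠
          ans (f i) ((G i).S c (j.1 + 1)) then (1:ℝ) else 0) ≤ w i * N := by
        intro i
        rw [← Finset.mul_sum]
        refine mul_le_mul_of_nonneg_left ?_ (hw0 i)
        have h8 : ∑ j : Fin J, (if ans (f i) ((G i).S c j.1) ≠
            ans (f i) ((G i).S c (j.1 + 1)) then (1:ℝ) else 0) =
            ((Finset.univ.filter fun j : Fin J => ans (f i) ((G i).S c j.1) ≠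
              ans (f i) ((G i).S c (j.1 + 1))).card : ℝ) := by
          rw [Finset.card_filter, Nat.cast_sum]
          refine Finset.sum_congr rfl fun z _ => ?_
          split_ifs <;> simp
        rw [h8]
        have h9 := chain_changes (f i) J (fun k => (G i).S c k) fun k => (G i).mono c k
        have h10 : (Finset.univ.filter fun j : Fin J => ans (f i) ((G i).S c j.1) ≠
              ans (f i) ((G i).S c (j.1 + 1))).card ≤
            ((Finset.range J).filter fun k => ans (f i) ((G i).S c k) ≠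
              ans (f i) ((G i).S c (k + 1))).card := by
          refine Finset.card_le_card_of_injOn (fun j => j.1) ?_ fun a _ b _ h => Fin.ext h
          intro j hj
          rw [Finset.mem_coe, Finset.mem_filter] at hj
          rw [Finset.mem_coe, Finset.mem_filter]
          exact ⟨Finset.mem_range.2 j.2, hj.2⟩
        exact_mod_cast h10.trans h9
      refine (Finset.sum_le_sum fun i _ => h7 i).trans (le_of_eq ?_)
      rw [← Finset.sum_mul, hw1, one_mul]
    calc ∑ j : Fin J, MAJ.Pr w (fun i => (t i).eval (ans (f i) ((G i).S c (j.1 + 1))) = false ∨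
          (ans (f i) ((G i).S c j.1) ≠ ans (f i) ((G i).S c (j.1 + 1)) ∨
          (β * (2 * D * l * B : ℕ) < ((bz i j c).card : ℝ) ∨
            L < ∑ y, ν i ((G i).S c j.1) (Sum.inl ((G i).Y j y)))))
        ≤ ∑ j : Fin J, (ε1 + Pr w (fun i => ans (f i) ((G i).S c j.1) ≠
          ans (f i) ((G i).S c (j.1 + 1))) + ε2 / β + κ) := by
          refine Finset.sum_le_sum fun j _ => ?_
          refine (hsumPr _ _).trans ?_
          have h11 := hb1 j
          have h12 := hsumPr (fun i => ans (f i) ((G i).S c j.1) ≠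
            ans (f i) ((G i).S c (j.1 + 1))) (fun i =>
            (β * (2 * D * l * B : ℕ) < ((bz i j c).card : ℝ) ∨
            L < ∑ y, ν i ((G i).S c j.1) (Sum.inl ((G i).Y j y))))
          have h13 := hsumPr (fun i => β * (2 * D * l * B : ℕ) < ((bz i j c).card : ℝ)) (fun i =>
            L < ∑ y, ν i ((G i).S c j.1) (Sum.inl ((G i).Y j y)))
          have h14 := hb3 j
          have h15 := hk c j
          linarith
      _ = J * (ε1 + ε2 / β + κ) + ∑ j : Fin J, Pr w (fun i => ans (f i) ((G i).S c j.1) ≠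
          ans (f i) ((G i).S c (j.1 + 1))) := by
          rw [Finset.sum_add_distrib, Finset.sum_add_distrib, Finset.sum_add_distrib]
          simp only [Finset.sum_const, Finset.card_univ, Fintype.card_fin, nsmul_eq_mul]
          ring
      _ ≤ J * (ε1 + ε2 / β + κ) + N := by linarith
      _ = (ε1 + ε2 / β + N / J + κ) * J := by
          field_simp
          ring)
  -- everything outside the cell is fixed
  obtain ⟨cc, hcc⟩ : ∃ cc : Cw D l → Ch J D l, ∀ c', cc c' = Function.update γ j c' :=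
    ⟨_, fun _ => rfl⟩
  have hccj : ∀ c', cc c' j = c' := fun c' => by rw [hcc, Function.update_self]
  have hccZ : ∀ c', (G i).Z j (cc c') = (G i).Z j γ := fun c' =>
    (G i).Zc j _ _ fun k hk => by rw [hcc, Function.update_of_ne hk]
  have hGood' : ∀ c' ∈ G1, (t i).eval (ans (f i) ((G i).S (cc c') (j.1 + 1))) = true ∧
      ans (f i) ((G i).S (cc c') j.1) = ans (f i) ((G i).S (cc c') (j.1 + 1)) ∧
      ((bz i j (cc c')).card : ℝ) ≤ β * (2 * D * l * B : ℕ) ∧
      ∑ y, ν i ((G i).S (cc c') j.1) (Sum.inl ((G i).Y j y)) ≤ L := by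
    intro c' hc'
    have h3 := hGood c' hc'
    rw [← hcc] at h3
    push Not at h3
    refine ⟨?_, h3.2.1, h3.2.2.1, h3.2.2.2⟩
    have h4 := h3.1
    cases h5 : (t i).eval (ans (f i) ((G i).S (cc c') (j.1 + 1)))
    · exact absurd h5 h4
    · rfl
  obtain ⟨G2, hG2, U, hU, hcard2⟩ := exists_value' G1
    (fun c' => (t i).ones (ans (f i) ((G i).S (cc c') j.1))) (DT.allOnes (t i)) (2 ^ h)
    ((DT.card_allOnes (t i)).trans (Nat.pow_le_pow_right (by norm_num) (ht i)))
    (fun c _ => DT.ones_mem _ _)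
  -- the product
  obtain ⟨g, hg⟩ : ∃ g : MvPolynomial (V ⊕ Ya) F, g = ∏ v ∈ U, f i v := ⟨_, rfl⟩
  have hgout : ∀ c ∈ G2, ∀ S ⊆ (G i).S (cc c) (j.1 + 1), restr S g ≠ 0 →
      (t i).eval (ans (f i) S) = true := by
    intro c hc S hS h0
    have h3 := hGood' c (hG2 hc)
    rw [← h3.1]
    refine eval_of_prod (f i) (t i) hS ?_
    rw [← h3.2.1, hU c hc, ← hg]
    exact h0
  have hcardW : (Fintype.card (Cw D l) : ℝ) = 2 ^ (2 * D * l) := by
    rw [Fintype.card_fun, Fintype.card_fun, Fintype.card_prod, Fintype.card_bool,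
      Fintype.card_fin, Fintype.card_fin, ← pow_mul]
    push_cast
    congr 1
    ring
  have hcard1 : (1 - (ε1 + ε2 / β + N / J + κ)) * 2 ^ (2 * D * l) ≤ (2 ^ h * G2.card : ℕ) := by
    rw [← hcardW]
    refine hG1.trans ?_
    exact_mod_cast hcard2
  rcases G2.eq_empty_or_nonempty with hempty | hnonempty
  · rw [hempty, Finset.card_empty, Nat.mul_zero, Nat.cast_zero] at hcard1
    rw [ENNReal.ofReal_eq_zero.2 hcard1, mul_zero]
    exact zero_le
  have hUh' : U.card ≤ h := by
    obtain ⟨c, hc⟩ := hnonempty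
    rw [← hU c hc]
    exact (DT.card_ones _ _).trans (ht i)
  -- monomials
  obtain ⟨μ, hμd⟩ : ∃ μ : Cw D l → (V ⊕ Ya) →₀ ℕ, ∀ c, μ c = ν i ((G i).S (cc c) j.1) :=
    ⟨_, fun _ => rfl⟩
  have hμ : ∀ c ∈ G2, μ c ∈ g.support ∧ CDET.sup (μ c) ⊆ (G i).S (cc c) j.1 := by
    intro c hc
    have h3 := hν i ((G i).S (cc c) j.1)
    rw [hU c hc, ← hg, ← hμd] at h3
    exact h3
  have hinj := (G i).inj j
  have hinjX : Function.Injective ((G i).X j) := fun a b hab => by
    have := @hinj (Sum.inl a) (Sum.inl b) hab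
    simpa using this
  have hinjY : Function.Injective ((G i).Y j) := fun a b hab => by
    have := @hinj (Sum.inr a) (Sum.inr b) hab
    simpa using this
  have hXY : ∀ x y, (G i).X j x ≠ (G i).Y j y := fun x y hxy => by
    have := @hinj (Sum.inl x) (Sum.inr y) hxy
    simp at this
  have hlow : ∀ c e, e ∈ (G i).S (cc c) j.1 → e ∈ (G i).Z j γ ∨
      (∃ x ∈ Mw B c, e = (G i).X j x) ∨ ∃ y ∈ Yw c, e = (G i).Y j y := by
    intro c e he
    have h3 := (G i).low (cc c) j e he
    rwa [hccZ, hccj] at h3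
  have hhigh : ∀ c e, (e ∈ (G i).Z j γ ∨ (∃ x, e = (G i).X j x) ∨
      ∃ y ∈ Yw c, e = (G i).Y j y) → e ∈ (G i).S (cc c) (j.1 + 1) := by
    intro c e he
    refine (G i).high (cc c) j e ?_
    rwa [hccZ, hccj]
  have hYsup : ∀ c ∈ G2, ∀ y, μ c (Sum.inl ((G i).Y j y)) ≠ 0 → y ∈ Yw c := by
    intro c hc y hy
    have h2 : (G i).Y j y ∈ CDET.sup (μ c) := by
      rw [CDET.sup, Finset.mem_filter]
      exact ⟨Finset.mem_univ _, hy⟩
    rcases hlow c _ ((hμ c hc).2 h2) with h4 | ⟨x', _, h4⟩ | ⟨y', hy', h4⟩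
    · exact absurd h4 ((G i).YZ j γ y)
    · exact absurd h4.symm (hXY _ _)
    · rw [hinjY h4]
      exact hy'
  have hmain := Pool.RT.core_det (C := Cw D l) g ((G i).X j) ((G i).Y j) ((G i).Z j γ) hinj
    ((G i).XZ j γ) ((G i).YZ j γ)
    (fun c => (Mw B c).filter fun x => (t i).eval (ans (f i)
      ((G i).S (cc c) (j.1 + 1) \ {(G i).X j x})) ≠ true)
    (fun c => Mw B c) G2 μ (fun c hc => (hμ c hc).1)
    (by
      intro c hc e he
      rcases hlow c e ((hμ c hc).2 he) with h | h | ⟨y, _, h⟩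
      · exact Or.inl h
      · exact Or.inr (Or.inl h)
      · exact Or.inr (Or.inr ⟨y, h⟩))
    (by
      intro c hc S hS hall x hx
      by_contra hxS
      refine (Finset.mem_filter.1 hx).2 ?_
      refine hgout c hc ((G i).S (cc c) (j.1 + 1) \ {(G i).X j x}) Finset.sdiff_subset ?_
      refine restr_ne_mono g ?_ hS
      intro e he
      rw [Finset.mem_sdiff, Finset.mem_singleton]
      refine ⟨hhigh c e ?_, fun h => hxS (h ▸ he)⟩
      rcases hall e he with h | h | ⟨y, h, hy⟩
      · exact Or.inl h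
      · exact Or.inr (Or.inl h)
      · exact Or.inr (Or.inr ⟨y, hYsup c hc y hy, h⟩))
    L
    (by
      intro c hc
      rw [hμd]
      exact (hGood' c (hG2 hc)).2.2.2)
    (fun c c' => hamd c c' < τ)
    (by
      intro c
      by_contra h3
      push Not at h3
      rw [hamd_self] at h3
      have hτ0 : τ = 0 := by omega
      rw [hτ0] at hτ
      have h4 : (0 : ℝ) < β * (2 * D * l * B) := by
        have : (0 : ℝ) < 2 * D * l * B := by
          have : 0 < 2 * D * l * B := by positivity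
          exact_mod_cast this
        positivity
      have h5 : (0 : ℝ) ≤ T0 := Nat.cast_nonneg _
      simp at hτ
      linarith)
    (fun c c' h => by rw [hamd_comm]; exact h)
    (∑ j ∈ Finset.range τ, (2 * D * l).choose j) T0
    (fun c _ A _ hA => ball_le c A hA)
    (by
      intro c _ c' hc' hfar
      push Not at hfar
      have h3 := (hGood' c' (hG2 hc')).2.2.1
      have h4 : ((Mw B c').filter fun x => (t i).eval (ans (f i)
          ((G i).S (cc c') (j.1 + 1) \ {(G i).X j x})) = true).card ≤ (bz i j (cc c')).card := by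
        refine Finset.card_le_card_of_injOn (fun x => (x.1, x.2.2)) ?_ ?_
        · intro x hx
          rw [Finset.mem_coe, Finset.mem_filter] at hx
          rw [Finset.mem_coe, hbz]
          have h5 : zx (cc c' j) (x.1, x.2.2) = x := by
            have h6 := (mem_Mw c' x).1 hx.1
            rw [hccj, zx]
            simp only
            rw [← h6]
          rw [h5]
          exact hx.2
        · intro x hx x' hx' hxx
          rw [Finset.mem_coe, Finset.mem_filter] at hx hx'
          have h6 := (mem_Mw c' x).1 hx.1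
          have h7 := (mem_Mw c' x').1 hx'.1
          simp only [Prod.mk.injEq] at hxx
          obtain ⟨x1, x2, x3⟩ := x
          obtain ⟨y1, y2, y3⟩ := x'
          simp only at hxx h6 h7
          rw [hxx.1, hxx.2, h6, h7, hxx.1]
      have h5 : (Mw B c' \ Mw B c).card ≤
          (((Mw B c').filter fun x => (t i).eval (ans (f i)
            ((G i).S (cc c') (j.1 + 1) \ {(G i).X j x})) ≠ true) \ Mw B c).card +
          ((Mw B c').filter fun x => (t i).eval (ans (f i)
            ((G i).S (cc c') (j.1 + 1) \ {(G i).X j x})) = true).card := by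
        rw [← Nat.sub_le_iff_le_add]
        refine (Finset.le_card_sdiff _ _).trans (Finset.card_le_card ?_)
        intro x hx
        simp only [Finset.mem_sdiff, Finset.mem_filter, not_and] at hx ⊢
        exact ⟨⟨hx.1.1, hx.2 hx.1.1⟩, hx.1.2⟩
      rw [card_sdiff_Mw] at h5
      have h6 : ((hamd c c' * B : ℕ) : ℝ) ≤
          ((((Mw B c').filter fun x => (t i).eval (ans (f i)
            ((G i).S (cc c') (j.1 + 1) \ {(G i).X j x})) ≠ true) \ Mw B c).card : ℝ) +
          (((Mw B c').filter fun x => (t i).eval (ans (f i)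
            ((G i).S (cc c') (j.1 + 1) \ {(G i).X j x})) = true).card : ℝ) := by
        exact_mod_cast h5
      have h7 : (τ : ℝ) * B ≤ ((hamd c c' * B : ℕ) : ℝ) := by
        have : τ * B ≤ hamd c c' * B := Nat.mul_le_mul_right _ hfar
        exact_mod_cast this
      have h8 : (((Mw B c').filter fun x => (t i).eval (ans (f i)
          ((G i).S (cc c') (j.1 + 1) \ {(G i).X j x})) = true).card : ℝ) ≤
          ((bz i j (cc c')).card : ℝ) := by
        exact_mod_cast h4
      have h9 : (β * ((2 * D * l * B : ℕ) : ℝ)) = β * (2 * D * l * B) := by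
        push_cast
        ring
      have h10 : (T0 : ℝ) ≤ ((((Mw B c').filter fun x => (t i).eval (ans (f i)
            ((G i).S (cc c') (j.1 + 1) \ {(G i).X j x})) ≠ true) \ Mw B c).card : ℝ) := by
        linarith
      exact_mod_cast h10)
    (l0 := l0) (R := R) hQ (fun D' hD' => by rw [hg]; exact hR i U hUh' D' hD')
    (by
      refine le_trans ?_ hT0
      gcongr
      have h3 : G2.card ≤ Fintype.card (Cw D l) := Finset.card_le_univ _
      have h4 : (Fintype.card (Cw D l) : ℝ≥0∞) = 2 ^ (2 * D * l) := by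
        rw [Fintype.card_fun, Fintype.card_fun, Fintype.card_prod, Fintype.card_bool,
          Fintype.card_fin, Fintype.card_fin, ← pow_mul]
        push_cast
        congr 1
        ring
      rw [← h4]
      exact Nat.cast_le.2 h3)
  calc Q ^ l0 * ENNReal.ofReal ((1 - (ε1 + ε2 / β + N / J + κ)) * 2 ^ (2 * D * l))
      ≤ Q ^ l0 * (((2 ^ h * G2.card : ℕ) : ℝ≥0∞)) := by
        gcongr
        rw [← ENNReal.ofReal_natCast]
        exact ENNReal.ofReal_le_ofReal hcard1
    _ = ((2 ^ h : ℕ) : ℝ≥0∞) * (Q ^ l0 * (G2.card : ℝ≥0∞)) := by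
        rw [Nat.cast_mul]
        ring
    _ ≤ ((2 ^ h : ℕ) : ℝ≥0∞) * (2 * R * ((L + 1) * ∑ j ∈ Finset.range τ,
          (2 * D * l).choose j : ℕ)) := by gcongr
    _ = _ := by
        rw [Nat.cast_mul (2 ^ h)]
        ring

end

end Pool.AD
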