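import Pool.Agent.Helper10.AD.Pf

/-!
# The machine for decision trees of zero tests with few positive answers
-/

set_option autoImplicit false
set_option linter.unusedSectionVars false

namespace Pool.AD

open Finset hiding sup
open MvPolynomial Pool.SDL Pool.Agent.SDet Pool.Agent.Helper76 Pool.Agent.Helper76.CDET Pool.GT
open Pool.RT (Pr Pr_eq)
open scoped ENNReal BigOperators

/-- branches of a tree of depth `h` -/
theorem br_depth {N h : ℕ} (t : DT N) (ht : t.depth ≤ h) :
    ∃ A : Finset (Finset (Fin N)), A.card ≤ 2 ^ h ∧ ∀ a, t.ones a ∈ A :=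
  ⟨DT.allOnes t, (DT.card_allOnes t).trans (Nat.pow_le_pow_right (by norm_num) ht),
    fun a => DT.ones_mem a t⟩

/-- the number of sets with at most `h` elements -/
theorem card_small_sets (N h : ℕ) :
    ((Finset.univ : Finset (Finset (Fin N))).filter fun U => U.card ≤ h).card ≤ (N + 1) ^ h := by
  classical
  have h1 : ((Finset.univ : Finset (Finset (Fin N))).filter fun U => U.card ≤ h) ⊆
      (Finset.univ : Finset (Fin h → Option (Fin N))).image
        fun g => Finset.univ.filter fun v => ∃ i, g i = some v := by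
    intro U hU
    rw [Finset.mem_filter] at hU
    rw [Finset.mem_image]
    have hlen : U.toList.length ≤ h := by
      rw [Finset.length_toList]
      exact hU.2
    refine ⟨fun i => U.toList[i.1]?, Finset.mem_univ _, ?_⟩
    ext v
    rw [Finset.mem_filter]
    constructor
    · rintro ⟨-, i, hi⟩
      have := List.mem_of_getElem? hi
      exact Finset.mem_toList.1 this
    · intro hv
      refine ⟨Finset.mem_univ _, ?_⟩
      obtain ⟨i, hi, hiv⟩ := List.getElem_of_mem (Finset.mem_toList.2 hv)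
      exact ⟨⟨i, lt_of_lt_of_le hi hlen⟩, by simp only; rw [List.getElem?_eq_getElem hi, hiv]⟩
  refine (Finset.card_le_card h1).trans (Finset.card_image_le.trans ?_)
  rw [Finset.card_univ, Fintype.card_fun, Fintype.card_option, Fintype.card_fin, Fintype.card_fin]

/-- branches with at most `h` positive answers -/
theorem br_ones {N h : ℕ} (t : DT N) (ht : ∀ a, (t.ones a).card ≤ h) :
    ∃ A : Finset (Finset (Fin N)), A.card ≤ (N + 1) ^ h ∧ ∀ a, t.ones a ∈ A :=
  ⟨_, card_small_sets N h, fun a => Finset.mem_filter.2 ⟨Finset.mem_univ _, ht a⟩⟩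

section
variable {F : Type} [Field F] {V Ya : Type} [DecidableEq V] [Fintype V]

/-- THE MACHINE for random decision trees of zero tests and random gadgets; only the number of
positive answers on a path is bounded -/
theorem adapt_cell_ones {I : Type} [Fintype I] (w : I → ℝ) (hw0 : ∀ i, 0 ≤ w i)
    (hw1 : ∑ i, w i = 1) {N h : ℕ} (t : I → DT N) (hones : ∀ i a, ((t i).ones a).card ≤ h)
    (Br : ℕ) (hbr : ∀ i, ∃ A : Finset (Finset (Fin N)), A.card ≤ Br ∧ ∀ a, (t i).ones a ∈ A)
    (f : I → Fin N → MvPolynomial (V ⊕ Ya) F) {P : Finset V → Prop}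
    {J D l B : ℕ} (hJ : 1 ≤ J) (hD : 1 ≤ D) (hl : 1 ≤ l) (hB : 1 ≤ B)
    (G : I → CellGadget P J D l B) (ε1 ε2 κ : ℝ)
    (hyes : ∀ (c : Ch J D l) (j : ℕ), j ≤ J →
      Pr w (fun i => (t i).eval (ans (f i) ((G i).S c j)) = false) ≤ ε1)
    (hno : ∀ (c : Ch J D l) (j : Fin J), ∀ x ∈ Mw B (c j),
      Pr w (fun i => (t i).eval (ans (f i) ((G i).S c (j.1 + 1) \ {(G i).X j x})) = true) ≤ ε2)
    (ν : I → Finset V → (V ⊕ Ya) →₀ ℕ)
    (hν : ∀ i S, ν i S ∈ (∏ v ∈ (t i).ones (ans (f i) S), f i v).support ∧ CDET.sup (ν i S) ⊆ S)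
    (L : ℕ) (hk : ∀ (c : Ch J D l) (j : Fin J),
      Pr w (fun i => L < ∑ y, ν i ((G i).S c j.1) (Sum.inl ((G i).Y j y))) ≤ κ)
    (β : ℝ) (hβ : 0 < β) (τ T0 : ℕ) (hτ : (T0 : ℝ) + β * (2 * D * l * B) ≤ τ * B)
    {l0 : ℕ} {Q R : ℝ≥0∞} (hQ : Q < 1)
    (hR : ∀ i, ∀ U : Finset (Fin N), U.card ≤ h → ∀ D' ≤ L,
      Pool.RT.SmallK (∏ v ∈ U, f i v) D' l0 Q R)
    (hT0 : (2 : ℝ≥0∞) ^ (2 * D * l) * Q ^ T0 ≤ 1 / 2) :
    Q ^ l0 * ENNReal.ofReal ((1 - (ε1 + ε2 / β + N / J + κ)) * 2 ^ (2 * D * l)) ≤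
      2 * R * (Br * ((L + 1) * ∑ j ∈ Finset.range τ, (2 * D * l).choose j) : ℕ) := by
  classical
  have hJ0 : (0 : ℝ) < J := by exact_mod_cast hJ
  have hcardz : Fintype.card (((Fin D × Bool) × Fin l) × Fin B) = 2 * D * l * B := by
    simp only [Fintype.card_prod, Fintype.card_fin, Fintype.card_bool]
    ring
  have hEpos : (0 : ℝ) < ((2 * D * l * B : ℕ) : ℝ) := by
    have : 0 < 2 * D * l * B := by positivity
    exact_mod_cast this
  have hneC : Nonempty (Cw D l) := ⟨fun _ _ => false⟩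
  obtain ⟨bz, hbz⟩ : ∃ bz : I → Fin J → Ch J D l → Finset (((Fin D × Bool) × Fin l) × Fin B),
      ∀ i j c z, z ∈ bz i j c ↔
        (t i).eval (ans (f i) ((G i).S c (j.1 + 1) \ {(G i).X j (zx (c j) z)})) = true :=
    ⟨fun i j c => Finset.univ.filter fun z =>
      (t i).eval (ans (f i) ((G i).S c (j.1 + 1) \ {(G i).X j (zx (c j) z)})) = true, by simp⟩
  have hsumPr : ∀ (p q : I → Prop), Pr w (fun i => p i ∨ q i) ≤ Pr w p + Pr w q := by
    intro p q
    rw [Pr_eq, Pr_eq, Pr_eq, ← Finset.sum_add_distrib]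
    refine Finset.sum_le_sum fun i _ => ?_
    rw [← mul_add]
    refine mul_le_mul_of_nonneg_left ?_ (hw0 i)
    by_cases e1 : p i <;> by_cases e2 : q i <;> simp [e1, e2]
  -- a good index and a good cell
  obtain ⟨i, j, γ, G1, hG1, hGood⟩ := Pool.ADP.exists_cell (C := Cw D l) (J := J) hJ w hw0 hw1
    (fun i j (c : Ch J D l) => (t i).eval (ans (f i) ((G i).S c (j.1 + 1))) = false ∨
      (ans (f i) ((G i).S c j.1) ≠ ans (f i) ((G i).S c (j.1 + 1)) ∨
      (β * (2 * D * l * B : ℕ) < ((bz i j c).card : ℝ) ∨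
        L < ∑ y, ν i ((G i).S c j.1) (Sum.inl ((G i).Y j y)))))
    (ε1 + ε2 / β + N / J + κ) (by
    intro c
    have hb1 : ∀ j : Fin J, Pr w (fun i => (t i).eval (ans (f i) ((G i).S c (j.1 + 1))) = false) ≤
        ε1 := fun j => hyes c (j.1 + 1) (by have := j.2; omega)
    have hb3 : ∀ j : Fin J, Pr w (fun i => β * (2 * D * l * B : ℕ) < ((bz i j c).card : ℝ)) ≤
        ε2 / β := by
      intro j
      rw [Pr_eq]
      have hE : ∑ i, w i * ((bz i j c).card : ℝ) ≤ ε2 * (2 * D * l * B : ℕ) := by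
        have h4 : ∀ i, w i * ((bz i j c).card : ℝ) =
            ∑ z, w i * (if (t i).eval (ans (f i)
              ((G i).S c (j.1 + 1) \ {(G i).X j (zx (c j) z)})) = true then (1:ℝ) else 0) := by
          intro i
          rw [← Finset.mul_sum]
          congr 1
          have h5 : bz i j c = Finset.univ.filter fun z => (t i).eval (ans (f i)
              ((G i).S c (j.1 + 1) \ {(G i).X j (zx (c j) z)})) = true := by
            ext z
            rw [hbz]
            simp
          rw [h5, Finset.card_filter, Nat.cast_sum]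
          refine Finset.sum_congr rfl fun z _ => ?_
          split_ifs <;> simp
        rw [Finset.sum_congr rfl fun i _ => h4 i, Finset.sum_comm]
        calc ∑ z, ∑ i, w i * (if (t i).eval (ans (f i)
              ((G i).S c (j.1 + 1) \ {(G i).X j (zx (c j) z)})) = true then (1:ℝ) else 0)
            ≤ ∑ _z : ((Fin D × Bool) × Fin l) × Fin B, ε2 := by
              refine Finset.sum_le_sum fun z _ => ?_
              have h5 := hno c j (zx (c j) z) (zx_mem (c j) z)
              rwa [Pr_eq] at h5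
          _ = ε2 * (2 * D * l * B : ℕ) := by
              rw [Finset.sum_const, Finset.card_univ, hcardz, nsmul_eq_mul, mul_comm]
      have h6 := Pool.RT.markov w hw0 (fun i => (bz i j c).card)
        (ε2 * (2 * D * l * B : ℕ)) (β * (2 * D * l * B : ℕ)) (mul_pos hβ hEpos) hE
      rwa [mul_div_mul_right _ _ hEpos.ne'] at h6
    have hb2 : ∑ j : Fin J, Pr w (fun i => ans (f i) ((G i).S c j.1) ≠
        ans (f i) ((G i).S c (j.1 + 1))) ≤ N := by
      simp_rw [Pr_eq]
      rw [Finset.sum_comm]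
      have h7 : ∀ i, ∑ j : Fin J, w i * (if ans (f i) ((G i).S c j.1) ≠
          ans (f i) ((G i).S c (j.1 + 1)) then (1:ℝ) else 0) ≤ w i * N := by
        intro i
        rw [← Finset.mul_sum]
        refine mul_le_mul_of_nonneg_left ?_ (hw0 i)
        have h8 : ∑ j : Fin J, (if ans (f i) ((G i).S c j.1) ≠
            ans (f i) ((G i).S c (j.1 + 1)) then (1:ℝ) else 0) =
            ((Finset.univ.filter fun j : Fin J => ans (f i) ((G i).S c j.1) ≠
              ans (f i) ((G i).S c (j.1 + 1))).card : ℝ) := by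
          rw [Finset.card_filter, Nat.cast_sum]
          refine Finset.sum_congr rfl fun z _ => ?_
          split_ifs <;> simp
        rw [h8]
        have h9 := chain_changes (f i) J (fun k => (G i).S c k) fun k => (G i).mono c k
        have h10 : (Finset.univ.filter fun j : Fin J => ans (f i) ((G i).S c j.1) ≠
              ans (f i) ((G i).S c (j.1 + 1))).card ≤
            ((Finset.range J).filter fun k => ans (f i) ((G i).S c k) ≠
              ans (f i) ((G i).S c (k + 1))).card := by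
          refine Finset.card_le_card_of_injOn (fun j => j.1) ?_ fun a _ b _ h => Fin.ext h
          intro j hj
          rw [Finset.mem_coe, Finset.mem_filter] at hj
          rw [Finset.mem_coe, Finset.mem_filter]
          exact ⟨Finset.mem_range.2 j.2, hj.2⟩
        exact_mod_cast h10.trans h9
      refine (Finset.sum_le_sum fun i _ => h7 i).trans (le_of_eq ?_)
      rw [← Finset.sum_mul, hw1, one_mul]
    calc ∑ j : Fin J, MAJ.Pr w (fun i => (t i).eval (ans (f i) ((G i).S c (j.1 + 1))) = false ∨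
          (ans (f i) ((G i).S c j.1) ≠ ans (f i) ((G i).S c (j.1 + 1)) ∨
          (β * (2 * D * l * B : ℕ) < ((bz i j c).card : ℝ) ∨
            L < ∑ y, ν i ((G i).S c j.1) (Sum.inl ((G i).Y j y)))))
        ≤ ∑ j : Fin J, (ε1 + Pr w (fun i => ans (f i) ((G i).S c j.1) ≠
          ans (f i) ((G i).S c (j.1 + 1))) + ε2 / β + κ) := by
          refine Finset.sum_le_sum fun j _ => ?_
          refine (hsumPr _ _).trans ?_
          have h11 := hb1 j
          have h12 := hsumPr (fun i => ans (f i) ((G i).S c j.1) ≠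
            ans (f i) ((G i).S c (j.1 + 1))) (fun i =>
            (β * (2 * D * l * B : ℕ) < ((bz i j c).card : ℝ) ∨
            L < ∑ y, ν i ((G i).S c j.1) (Sum.inl ((G i).Y j y))))
          have h13 := hsumPr (fun i => β * (2 * D * l * B : ℕ) < ((bz i j c).card : ℝ)) (fun i =>
            L < ∑ y, ν i ((G i).S c j.1) (Sum.inl ((G i).Y j y)))
          have h14 := hb3 j
          have h15 := hk c j
          linarith
      _ = J * (ε1 + ε2 / β + κ) + ∑ j : Fin J, Pr w (fun i => ans (f i) ((G i).S c j.1) ≠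
          ans (f i) ((G i).S c (j.1 + 1))) := by
          rw [Finset.sum_add_distrib, Finset.sum_add_distrib, Finset.sum_add_distrib]
          simp only [Finset.sum_const, Finset.card_univ, Fintype.card_fin, nsmul_eq_mul]
          ring
      _ ≤ J * (ε1 + ε2 / β + κ) + N := by linarith
      _ = (ε1 + ε2 / β + N / J + κ) * J := by
          field_simp
          ring)
  -- everything outside the cell is fixed
  obtain ⟨cc, hcc⟩ : ∃ cc : Cw D l → Ch J D l, ∀ c', cc c' = Function.update γ j c' :=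
    ⟨_, fun _ => rfl⟩
  have hccj : ∀ c', cc c' j = c' := fun c' => by rw [hcc, Function.update_self]
  have hccZ : ∀ c', (G i).Z j (cc c') = (G i).Z j γ := fun c' =>
    (G i).Zc j _ _ fun k hk => by rw [hcc, Function.update_of_ne hk]
  have hGood' : ∀ c' ∈ G1, (t i).eval (ans (f i) ((G i).S (cc c') (j.1 + 1))) = true ∧
      ans (f i) ((G i).S (cc c') j.1) = ans (f i) ((G i).S (cc c') (j.1 + 1)) ∧
      ((bz i j (cc c')).card : ℝ) ≤ β * (2 * D * l * B : ℕ) ∧
      ∑ y, ν i ((G i).S (cc c') j.1) (Sum.inl ((G i).Y j y)) ≤ L := by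
    intro c' hc'
    have h3 := hGood c' hc'
    rw [← hcc] at h3
    push Not at h3
    refine ⟨?_, h3.2.1, h3.2.2.1, h3.2.2.2⟩
    have h4 := h3.1
    cases h5 : (t i).eval (ans (f i) ((G i).S (cc c') (j.1 + 1)))
    · exact absurd h5 h4
    · rfl
  obtain ⟨As, hAs1, hAs2⟩ := hbr i
  obtain ⟨G2, hG2, U, hU, hcard2⟩ := exists_value' G1
    (fun c' => (t i).ones (ans (f i) ((G i).S (cc c') j.1))) As Br hAs1 (fun c _ => hAs2 _)
  -- the product
  obtain ⟨g, hg⟩ : ∃ g : MvPolynomial (V ⊕ Ya) F, g = ∏ v ∈ U, f i v := ⟨_, rfl⟩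
  have hgout : ∀ c ∈ G2, ∀ S ⊆ (G i).S (cc c) (j.1 + 1), restr S g ≠ 0 →
      (t i).eval (ans (f i) S) = true := by
    intro c hc S hS h0
    have h3 := hGood' c (hG2 hc)
    rw [← h3.1]
    refine eval_of_prod (f i) (t i) hS ?_
    rw [← h3.2.1, hU c hc, ← hg]
    exact h0
  have hcardW : (Fintype.card (Cw D l) : ℝ) = 2 ^ (2 * D * l) := by
    rw [Fintype.card_fun, Fintype.card_fun, Fintype.card_prod, Fintype.card_bool,
      Fintype.card_fin, Fintype.card_fin, ← pow_mul]
    push_cast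
    congr 1
    ring
  have hcard1 : (1 - (ε1 + ε2 / β + N / J + κ)) * 2 ^ (2 * D * l) ≤ (Br * G2.card : ℕ) := by
    rw [← hcardW]
    refine hG1.trans ?_
    exact_mod_cast hcard2
  rcases G2.eq_empty_or_nonempty with hempty | hnonempty
  · rw [hempty, Finset.card_empty, Nat.mul_zero, Nat.cast_zero] at hcard1
    rw [ENNReal.ofReal_eq_zero.2 hcard1, mul_zero]
    exact zero_le
  have hUh' : U.card ≤ h := by
    obtain ⟨c, hc⟩ := hnonempty
    rw [← hU c hc]
    exact hones i _
  -- monomials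
  obtain ⟨μ, hμd⟩ : ∃ μ : Cw D l → (V ⊕ Ya) →₀ ℕ, ∀ c, μ c = ν i ((G i).S (cc c) j.1) :=
    ⟨_, fun _ => rfl⟩
  have hμ : ∀ c ∈ G2, μ c ∈ g.support ∧ CDET.sup (μ c) ⊆ (G i).S (cc c) j.1 := by
    intro c hc
    have h3 := hν i ((G i).S (cc c) j.1)
    rw [hU c hc, ← hg, ← hμd] at h3
    exact h3
  have hinj := (G i).inj j
  have hinjX : Function.Injective ((G i).X j) := fun a b hab => by
    have := @hinj (Sum.inl a) (Sum.inl b) hab
    simpa using this
  have hinjY : Function.Injective ((G i).Y j) := fun a b hab => by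
    have := @hinj (Sum.inr a) (Sum.inr b) hab
    simpa using this
  have hXY : ∀ x y, (G i).X j x ≠ (G i).Y j y := fun x y hxy => by
    have := @hinj (Sum.inl x) (Sum.inr y) hxy
    simp at this
  have hlow : ∀ c e, e ∈ (G i).S (cc c) j.1 → e ∈ (G i).Z j γ ∨
      (∃ x ∈ Mw B c, e = (G i).X j x) ∨ ∃ y ∈ Yw c, e = (G i).Y j y := by
    intro c e he
    have h3 := (G i).low (cc c) j e he
    rwa [hccZ, hccj] at h3
  have hhigh : ∀ c e, (e ∈ (G i).Z j γ ∨ (∃ x, e = (G i).X j x) ∨
      ∃ y ∈ Yw c, e = (G i).Y j y) → e ∈ (G i).S (cc c) (j.1 + 1) := by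
    intro c e he
    refine (G i).high (cc c) j e ?_
    rwa [hccZ, hccj]
  have hYsup : ∀ c ∈ G2, ∀ y, μ c (Sum.inl ((G i).Y j y)) ≠ 0 → y ∈ Yw c := by
    intro c hc y hy
    have h2 : (G i).Y j y ∈ CDET.sup (μ c) := by
      rw [CDET.sup, Finset.mem_filter]
      exact ⟨Finset.mem_univ _, hy⟩
    rcases hlow c _ ((hμ c hc).2 h2) with h4 | ⟨x', _, h4⟩ | ⟨y', hy', h4⟩
    · exact absurd h4 ((G i).YZ j γ y)
    · exact absurd h4.symm (hXY _ _)
    · rw [hinjY h4]
      exact hy'
  have hmain := Pool.RT.core_det (C := Cw D l) g ((G i).X j) ((G i).Y j) ((G i).Z j γ) hinj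
    ((G i).XZ j γ) ((G i).YZ j γ)
    (fun c => (Mw B c).filter fun x => (t i).eval (ans (f i)
      ((G i).S (cc c) (j.1 + 1) \ {(G i).X j x})) ≠ true)
    (fun c => Mw B c) G2 μ (fun c hc => (hμ c hc).1)
    (by
      intro c hc e he
      rcases hlow c e ((hμ c hc).2 he) with h | h | ⟨y, _, h⟩
      · exact Or.inl h
      · exact Or.inr (Or.inl h)
      · exact Or.inr (Or.inr ⟨y, h⟩))
    (by
      intro c hc S hS hall x hx
      by_contra hxS
      refine (Finset.mem_filter.1 hx).2 ?_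
      refine hgout c hc ((G i).S (cc c) (j.1 + 1) \ {(G i).X j x}) Finset.sdiff_subset ?_
      refine restr_ne_mono g ?_ hS
      intro e he
      rw [Finset.mem_sdiff, Finset.mem_singleton]
      refine ⟨hhigh c e ?_, fun h => hxS (h ▸ he)⟩
      rcases hall e he with h | h | ⟨y, h, hy⟩
      · exact Or.inl h
      · exact Or.inr (Or.inl h)
      · exact Or.inr (Or.inr ⟨y, hYsup c hc y hy, h⟩))
    L
    (by
      intro c hc
      rw [hμd]
      exact (hGood' c (hG2 hc)).2.2.2)
    (fun c c' => hamd c c' < τ)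
    (by
      intro c
      by_contra h3
      push Not at h3
      rw [hamd_self] at h3
      have hτ0 : τ = 0 := by omega
      rw [hτ0] at hτ
      have h4 : (0 : ℝ) < β * (2 * D * l * B) := by
        have : (0 : ℝ) < 2 * D * l * B := by
          have : 0 < 2 * D * l * B := by positivity
          exact_mod_cast this
        positivity
      have h5 : (0 : ℝ) ≤ T0 := Nat.cast_nonneg _
      simp at hτ
      linarith)
    (fun c c' h => by rw [hamd_comm]; exact h)
    (∑ j ∈ Finset.range τ, (2 * D * l).choose j) T0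
    (fun c _ A _ hA => ball_le c A hA)
    (by
      intro c _ c' hc' hfar
      push Not at hfar
      have h3 := (hGood' c' (hG2 hc')).2.2.1
      have h4 : ((Mw B c').filter fun x => (t i).eval (ans (f i)
          ((G i).S (cc c') (j.1 + 1) \ {(G i).X j x})) = true).card ≤ (bz i j (cc c')).card := by
        refine Finset.card_le_card_of_injOn (fun x => (x.1, x.2.2)) ?_ ?_
        · intro x hx
          rw [Finset.mem_coe, Finset.mem_filter] at hx
          rw [Finset.mem_coe, hbz]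
          have h5 : zx (cc c' j) (x.1, x.2.2) = x := by
            have h6 := (mem_Mw c' x).1 hx.1
            rw [hccj, zx]
            simp only
            rw [← h6]
          rw [h5]
          exact hx.2
        · intro x hx x' hx' hxx
          rw [Finset.mem_coe, Finset.mem_filter] at hx hx'
          have h6 := (mem_Mw c' x).1 hx.1
          have h7 := (mem_Mw c' x').1 hx'.1
          simp only [Prod.mk.injEq] at hxx
          obtain ⟨x1, x2, x3⟩ := x
          obtain ⟨y1, y2, y3⟩ := x'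
          simp only at hxx h6 h7
          rw [hxx.1, hxx.2, h6, h7, hxx.1]
      have h5 : (Mw B c' \ Mw B c).card ≤
          (((Mw B c').filter fun x => (t i).eval (ans (f i)
            ((G i).S (cc c') (j.1 + 1) \ {(G i).X j x})) ≠ true) \ Mw B c).card +
          ((Mw B c').filter fun x => (t i).eval (ans (f i)
            ((G i).S (cc c') (j.1 + 1) \ {(G i).X j x})) = true).card := by
        rw [← Nat.sub_le_iff_le_add]
        refine (Finset.le_card_sdiff _ _).trans (Finset.card_le_card ?_)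
        intro x hx
        simp only [Finset.mem_sdiff, Finset.mem_filter, not_and] at hx ⊢
        exact ⟨⟨hx.1.1, hx.2 hx.1.1⟩, hx.1.2⟩
      rw [card_sdiff_Mw] at h5
      have h6 : ((hamd c c' * B : ℕ) : ℝ) ≤
          ((((Mw B c').filter fun x => (t i).eval (ans (f i)
            ((G i).S (cc c') (j.1 + 1) \ {(G i).X j x})) ≠ true) \ Mw B c).card : ℝ) +
          (((Mw B c').filter fun x => (t i).eval (ans (f i)
            ((G i).S (cc c') (j.1 + 1) \ {(G i).X j x})) = true).card : ℝ) := by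
        exact_mod_cast h5
      have h7 : (τ : ℝ) * B ≤ ((hamd c c' * B : ℕ) : ℝ) := by
        have : τ * B ≤ hamd c c' * B := Nat.mul_le_mul_right _ hfar
        exact_mod_cast this
      have h8 : (((Mw B c').filter fun x => (t i).eval (ans (f i)
          ((G i).S (cc c') (j.1 + 1) \ {(G i).X j x})) = true).card : ℝ) ≤
          ((bz i j (cc c')).card : ℝ) := by
        exact_mod_cast h4
      have h9 : (β * ((2 * D * l * B : ℕ) : ℝ)) = β * (2 * D * l * B) := by
        push_cast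
        ring
      have h10 : (T0 : ℝ) ≤ ((((Mw B c').filter fun x => (t i).eval (ans (f i)
            ((G i).S (cc c') (j.1 + 1) \ {(G i).X j x})) ≠ true) \ Mw B c).card : ℝ) := by
        linarith
      exact_mod_cast h10)
    (l0 := l0) (R := R) hQ (fun D' hD' => by rw [hg]; exact hR i U hUh' D' hD')
    (by
      refine le_trans ?_ hT0
      gcongr
      have h3 : G2.card ≤ Fintype.card (Cw D l) := Finset.card_le_univ _
      have h4 : (Fintype.card (Cw D l) : ℝ≥0∞) = 2 ^ (2 * D * l) := by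
        rw [Fintype.card_fun, Fintype.card_fun, Fintype.card_prod, Fintype.card_bool,
          Fintype.card_fin, Fintype.card_fin, ← pow_mul]
        push_cast
        congr 1
        ring
      rw [← h4]
      exact Nat.cast_le.2 h3)
  calc Q ^ l0 * ENNReal.ofReal ((1 - (ε1 + ε2 / β + N / J + κ)) * 2 ^ (2 * D * l))
      ≤ Q ^ l0 * (((Br * G2.card : ℕ) : ℝ≥0∞)) := by
        gcongr
        rw [← ENNReal.ofReal_natCast]
        exact ENNReal.ofReal_le_ofReal hcard1
    _ = (Br : ℝ≥0∞) * (Q ^ l0 * (G2.card : ℝ≥0∞)) := by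
        rw [Nat.cast_mul]
        ring
    _ ≤ (Br : ℝ≥0∞) * (2 * R * ((L + 1) * ∑ j ∈ Finset.range τ,
          (2 * D * l).choose j : ℕ)) := by gcongr
    _ = _ := by
        rw [Nat.cast_mul Br]
        ring

/-- from the extended to the real inequality -/
theorem real_of_ennreal' {q a R : ℝ} (hq0 : 0 < q) (hR0 : 0 ≤ R) {l0 M Br L τ : ℕ}
    (hmain : ENNReal.ofReal q ^ l0 * ENNReal.ofReal (a * 2 ^ M) ≤
      2 * ENNReal.ofReal R * (Br * ((L + 1) * ∑ j ∈ Finset.range τ, M.choose j) : ℕ)) :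
    q ^ l0 * (a * 2 ^ M) ≤
      2 * (Br * R) * ((L + 1) * ∑ j ∈ Finset.range τ, (M.choose j : ℝ)) := by
  rcases le_or_gt a 0 with hneg | hpos
  · have h3 : q ^ l0 * (a * 2 ^ M) ≤ 0 :=
      mul_nonpos_of_nonneg_of_nonpos (by positivity)
        (mul_nonpos_of_nonpos_of_nonneg hneg (by positivity))
    refine h3.trans ?_
    positivity
  · rw [← ENNReal.ofReal_pow hq0.le, ← ENNReal.ofReal_mul (by positivity)] at hmain
    have h4 : (2 * ENNReal.ofReal R * (Br * ((L + 1) * ∑ j ∈ Finset.range τ, M.choose j) : ℕ) :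
        ℝ≥0∞) = ENNReal.ofReal (2 * (Br * R) * ((L + 1) * ∑ j ∈ Finset.range τ,
          (M.choose j : ℝ))) := by
      have h5 : (2 * (Br * R) * ((L + 1) * ∑ j ∈ Finset.range τ, (M.choose j : ℝ))) =
          2 * R * ((Br * ((L + 1) * ∑ j ∈ Finset.range τ, M.choose j) : ℕ) : ℝ) := by
        push_cast
        ring
      rw [h5, ENNReal.ofReal_mul (by positivity), ENNReal.ofReal_mul (by norm_num),
        ENNReal.ofReal_natCast]
      congr 2
      simp
    rw [h4] at hmain
    exact (ENNReal.ofReal_le_ofReal_iff (by positivity)).1 hmain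

/-- THE INEQUALITY for random gadgets with cells, sums of Pfaffians, few positive answers -/
theorem adapt_cell_ones_pf {I : Type} [Fintype I] (w : I → ℝ) (hw0 : ∀ i, 0 ≤ w i)
    (hw1 : ∑ i, w i = 1) {N h : ℕ} (t : I → DT N) (hones : ∀ i a, ((t i).ones a).card ≤ h)
    (Br : ℕ) (hbr : ∀ i, ∃ A : Finset (Finset (Fin N)), A.card ≤ Br ∧ ∀ a, (t i).ones a ∈ A)
    (f : I → Fin N → MvPolynomial (V ⊕ Ya) F) {P : Finset V → Prop}
    {J D l B : ℕ} (hJ : 1 ≤ J) (hD : 1 ≤ D) (hl : 1 ≤ l) (hB : 1 ≤ B)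
    (G : I → CellGadget P J D l B) (ε1 ε2 κ : ℝ)
    (hyes : ∀ (c : Ch J D l) (j : ℕ), j ≤ J →
      Pr w (fun i => (t i).eval (ans (f i) ((G i).S c j)) = false) ≤ ε1)
    (hno : ∀ (c : Ch J D l) (j : Fin J), ∀ x ∈ Mw B (c j),
      Pr w (fun i => (t i).eval (ans (f i) ((G i).S c (j.1 + 1) \ {(G i).X j x})) = true) ≤ ε2)
    (ν' : I → Finset V → (V ⊕ Ya) →₀ ℕ)
    (hν : ∀ i S, ν' i S ∈ (∏ v ∈ (t i).ones (ans (f i) S), f i v).support ∧
      CDET.sup (ν' i S) ⊆ S)
    (L : ℕ) (hk : ∀ (c : Ch J D l) (j : Fin J),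
      Pr w (fun i => L < ∑ y, ν' i ((G i).S c j.1) (Sum.inl ((G i).Y j y))) ≤ κ)
    (β : ℝ) (hβ : 0 < β) (τ T0 : ℕ) (hτ : (T0 : ℝ) + β * (2 * D * l * B) ≤ τ * B)
    {r m d ν : ℕ} (hr : 1 ≤ r) (hd : 1 ≤ d) (hf : ∀ i v, IsPfSum r m d ν (f i v))
    (q : ℝ) (hq0 : 0 < q) (hq1 : q < 1) (hT0 : 2 ^ (2 * D * l) * q ^ T0 ≤ 1 / 2) :
    q ^ (h * ν + L * (d - 1)) * ((1 - (ε1 + ε2 / β + N / J + κ)) * 2 ^ (2 * D * l)) ≤
      2 * (Br * RP (r ^ h) (h * m) d L q) *
        ((L + 1) * ∑ j ∈ Finset.range τ, ((2 * D * l).choose j : ℝ)) := by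
  refine real_of_ennreal' hq0 (RP_nonneg _ _ _ _ hq1) ?_
  refine adapt_cell_ones w hw0 hw1 t hones Br hbr f hJ hD hl hB G ε1 ε2 κ hyes hno ν' hν L hk β hβ
    τ T0 hτ (ofReal_lt_one hq1)
    (fun i U hU D' hD' => small_of_cls (f i) hr hd (hf i) L q hq0 hq1 U hU D' hD') ?_
  rw [← ENNReal.ofReal_pow hq0.le]
  have h3 : (2 : ℝ≥0∞) ^ (2 * D * l) = ENNReal.ofReal (2 ^ (2 * D * l)) := by
    rw [ENNReal.ofReal_pow (by norm_num)]
    simp
  rw [h3, ← ENNReal.ofReal_mul (by positivity)]
  refine (ENNReal.ofReal_le_ofReal hT0).trans (le_of_eq ?_)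
  rw [ENNReal.ofReal_div_of_pos (by norm_num)]
  simp

/-- monomials of the products -/
theorem exists_nu {I : Type} {N : ℕ} (t : I → DT N) (f : I → Fin N → MvPolynomial (V ⊕ Ya) F) :
    ∃ ν : I → Finset V → (V ⊕ Ya) →₀ ℕ, ∀ i S,
      ν i S ∈ (∏ v ∈ (t i).ones (ans (f i) S), f i v).support ∧ CDET.sup (ν i S) ⊆ S := by
  classical
  have h1 : ∀ i S, ∃ μ ∈ (∏ v ∈ (t i).ones (ans (f i) S), f i v).support, CDET.sup μ ⊆ S := by
    intro i S
    refine exists_sup _ (fun S' => restr S' (∏ v ∈ (t i).ones (ans (f i) S), f i v) ≠ 0)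
      (fun _ => Iff.rfl) S ?_
    rw [restr_prod_ne_zero]
    intro v hv
    exact DT.ones_pos _ _ v hv
  choose ν h2 h3 using h1
  exact ⟨ν, fun i S => ⟨h2 i S, h3 i S⟩⟩

/-- the degree in the derivative elements of a cell, from the individual degrees -/
theorem sum_le_indiv {N h lam : ℕ} (t : DT N) (hones : ∀ a, (t.ones a).card ≤ h)
    (f : Fin N → MvPolynomial (V ⊕ Ya) F)
    (hlam : ∀ v, ∀ μ ∈ (f v).support, ∀ e, μ (Sum.inl e) ≤ lam) {P : Finset V → Prop}
    {J D l B : ℕ} (G : CellGadget P J D l B) (c : Ch J D l) (j : Fin J) (μ : (V ⊕ Ya) →₀ ℕ)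
    (hμ : μ ∈ (∏ v ∈ t.ones (ans f (G.S c j.1)), f v).support) (hsup : CDET.sup μ ⊆ G.S c j.1) :
    ∑ y, μ (Sum.inl (G.Y j y)) ≤ D * (lam * h) := by
  classical
  have hinj := G.inj j
  have h3 : ∀ y, μ (Sum.inl (G.Y j y)) ≠ 0 → y ∈ Yw (c j) := by
    intro y hy
    have h2 : G.Y j y ∈ CDET.sup μ := by
      rw [CDET.sup, Finset.mem_filter]
      exact ⟨Finset.mem_univ _, hy⟩
    rcases G.low c j _ (hsup h2) with h4 | ⟨x', _, h4⟩ | ⟨y', hy', h4⟩
    · exact absurd h4 (G.YZ j c y)
    · have := @hinj (Sum.inl x') (Sum.inr y) h4.symm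
      simp at this
    · have := @hinj (Sum.inr y) (Sum.inr y') h4
      rw [Sum.inr.injEq] at this
      rw [this]
      exact hy'
  calc ∑ y, μ (Sum.inl (G.Y j y)) = ∑ y ∈ Yw (c j), μ (Sum.inl (G.Y j y)) := by
        symm
        refine Finset.sum_subset (Finset.subset_univ _) fun y _ hy => ?_
        by_contra h4
        exact hy (h3 y h4)
    _ ≤ ∑ _y ∈ Yw (c j), lam * h := by
        refine Finset.sum_le_sum fun y _ => ?_
        exact (prod_deg f lam hlam _ μ hμ _).trans (Nat.mul_le_mul_left _ (hones _))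
    _ = D * (lam * h) := by rw [Finset.sum_const, card_Yw, smul_eq_mul]

end

end Pool.AD
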