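import Pool.Agent.Helper10.AD.Tree
import Pool.Agent.Helper10.GT.RandReal

/-!
# Gadgets and cells
-/

set_option autoImplicit false

namespace Pool.AD

open MvPolynomial Pool.Agent.Helper76.CDET Pool.GT

/-- Gadgets for a property `P` of sets: `D` blocks, two words of `l` bits for every block, `B`
alive elements `X` for every bit and every value; `Y` are the elements which show the choices, and
`Z` the other elements. -/
def BitsGadget {V : Type} (P : Finset V → Prop) (D l B : ℕ) : Prop :=
  ∃ (X : ((Fin D × Bool) × Fin l) × (Bool × Fin B) → V)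
    (Y : Fin D × (Fin l → Bool) × (Fin l → Bool) → V) (Z : Finset V),
    Function.Injective (Sum.elim X Y) ∧ (∀ x, X x ∉ Z) ∧ (∀ y, Y y ∉ Z) ∧
    (∀ (c : Fin D × Bool → Fin l → Bool) (S : Finset V), P S →
      (∀ e ∈ S, e ∈ Z ∨ (∃ x, e = X x) ∨ ∃ b, e = Y (b, c (b, false), c (b, true))) →
      (∀ h i j, X ((h, i), (c h i, j)) ∈ S) ∧ ∀ b, Y (b, c (b, false), c (b, true)) ∈ S) ∧
    ∀ c : Fin D × Bool → Fin l → Bool, ∃ S : Finset V, P S ∧
      ∀ e ∈ S, e ∈ Z ∨ (∃ h i j, e = X ((h, i), (c h i, j))) ∨
        ∃ b, e = Y (b, c (b, false), c (b, true))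

section
variable {J D l : ℕ}

/-- the words of a cell -/
abbrev Wd (D l : ℕ) : Type := Fin D × Bool → Fin l → Bool

/-- change the words of the cell `j` -/
def comb (j : Fin J) (γ : Wd (J * D) l) (c : Wd D l) : Wd (J * D) l := fun p =>
  if (finProdFinEquiv.symm p.1).1 = j then c ((finProdFinEquiv.symm p.1).2, p.2) else γ p

/-- the words of the cell `j` -/
def cellOf (j : Fin J) (w : Wd (J * D) l) : Wd D l := fun p => w (finProdFinEquiv (j, p.1), p.2)

theorem comb_in (j : Fin J) (γ : Wd (J * D) l) (c : Wd D l) (b : Fin D) (e : Bool) :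
    comb j γ c (finProdFinEquiv (j, b), e) = c (b, e) := by
  unfold comb
  simp

theorem comb_out (j : Fin J) (γ : Wd (J * D) l) (c : Wd D l) (p : Fin (J * D) × Bool)
    (hp : (finProdFinEquiv.symm p.1).1 ≠ j) : comb j γ c p = γ p := by
  unfold comb
  rw [if_neg hp]

theorem cellOf_comb (j : Fin J) (γ : Wd (J * D) l) (c : Wd D l) : cellOf j (comb j γ c) = c := by
  funext p
  obtain ⟨b, e⟩ := p
  exact comb_in j γ c b e

theorem comb_comb (j : Fin J) (γ : Wd (J * D) l) (c : Wd D l) :
    comb j (comb j γ c) (cellOf j γ) = γ := by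
  funext p
  obtain ⟨b, e⟩ := p
  by_cases hp : (finProdFinEquiv.symm b).1 = j
  · obtain ⟨⟨j', b'⟩, rfl⟩ := finProdFinEquiv.surjective b
    simp only [Equiv.symm_apply_apply] at hp
    rw [hp, comb_in]
    rfl
  · rw [comb_out _ _ _ _ hp, comb_out _ _ _ _ hp]

/-- exchange the cell -/
def swapC (j : Fin J) : Wd (J * D) l × Wd D l ≃ Wd (J * D) l × Wd D l where
  toFun p := (comb j p.1 p.2, cellOf j p.1)
  invFun p := (comb j p.1 p.2, cellOf j p.1)
  left_inv p := by
    obtain ⟨γ, c⟩ := p
    simp only [comb_comb, cellOf_comb]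
  right_inv p := by
    obtain ⟨γ, c⟩ := p
    simp only [comb_comb, cellOf_comb]

/-- the words outside the cell can be fixed -/
theorem exists_gamma (j : Fin J) (G : Finset (Wd (J * D) l)) :
    ∃ γ : Wd (J * D) l, Fintype.card (Wd D l) * G.card ≤
      Fintype.card (Wd (J * D) l) * (Finset.univ.filter fun c => comb j γ c ∈ G).card := by
  classical
  by_contra hcon
  push Not at hcon
  have h1 : ∑ γ : Wd (J * D) l, (Finset.univ.filter fun c : Wd D l => comb j γ c ∈ G).card =
      Fintype.card (Wd D l) * G.card := by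
    calc ∑ γ : Wd (J * D) l, (Finset.univ.filter fun c : Wd D l => comb j γ c ∈ G).card
        = ∑ γ : Wd (J * D) l, ∑ c : Wd D l, (if comb j γ c ∈ G then 1 else 0) := by
          refine Finset.sum_congr rfl fun γ _ => ?_
          rw [Finset.card_filter]
      _ = ∑ p : Wd (J * D) l × Wd D l, (if comb j p.1 p.2 ∈ G then 1 else 0) := by
          rw [Fintype.sum_prod_type]
      _ = ∑ p : Wd (J * D) l × Wd D l, (if (swapC j p).1 ∈ G then 1 else 0) := rfl
      _ = ∑ p : Wd (J * D) l × Wd D l, (if p.1 ∈ G then 1 else 0) :=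
          Equiv.sum_comp (swapC j) fun p : Wd (J * D) l × Wd D l => if p.1 ∈ G then 1 else 0
      _ = ∑ w : Wd (J * D) l, ∑ _c : Wd D l, (if w ∈ G then 1 else 0) := by
          rw [Fintype.sum_prod_type]
      _ = Fintype.card (Wd D l) * G.card := by
          simp only [Finset.sum_const, Finset.card_univ, smul_eq_mul]
          rw [← Finset.mul_sum]
          simp
  have h2 : Fintype.card (Wd (J * D) l) * ∑ γ : Wd (J * D) l,
      (Finset.univ.filter fun c : Wd D l => comb j γ c ∈ G).card <
      Fintype.card (Wd (J * D) l) * (Fintype.card (Wd D l) * G.card) := by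
    rw [Finset.mul_sum]
    calc ∑ γ : Wd (J * D) l, Fintype.card (Wd (J * D) l) *
          (Finset.univ.filter fun c : Wd D l => comb j γ c ∈ G).card
        < ∑ _γ : Wd (J * D) l, Fintype.card (Wd D l) * G.card := by
          have : Nonempty (Wd (J * D) l) := ⟨fun _ _ => false⟩
          exact Finset.sum_lt_sum_of_nonempty Finset.univ_nonempty fun γ _ => hcon γ
      _ = _ := by
          rw [Finset.sum_const, Finset.card_univ, smul_eq_mul]
  rw [h1] at h2
  exact lt_irrefl _ h2

end

/-- a large class with a common value in a small set -/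
theorem exists_value {C K : Type} [DecidableEq K] [Nonempty K] (G : Finset C) (d : C → K) (A : Finset K)
    (n : ℕ) (hA : A.card ≤ n) (hd : ∀ c ∈ G, d c ∈ A) :
    ∃ G' ⊆ G, ∃ k, (∀ c ∈ G', d c = k) ∧ G.card ≤ n * G'.card := by
  classical
  rcases G.eq_empty_or_nonempty with hG | ⟨c0, hc0⟩
  · subst hG
    exact ⟨∅, Finset.Subset.refl _, Classical.arbitrary K, fun c hc => absurd hc (Finset.notMem_empty c),
      by simp⟩
  · by_contra hcon
    push Not at hcon
    have h1 : ∀ k ∈ A, n * (G.filter fun c => d c = k).card < G.card := fun k _ =>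
      hcon _ (Finset.filter_subset _ _) k fun c hc => (Finset.mem_filter.1 hc).2
    have h2 : G.card = ∑ k ∈ A, (G.filter fun c => d c = k).card :=
      Finset.card_eq_sum_card_fiberwise fun c hc => hd c hc
    have h3 : n * G.card < n * G.card := by
      calc n * G.card = ∑ k ∈ A, n * (G.filter fun c => d c = k).card := by
            rw [← Finset.mul_sum, ← h2]
        _ < ∑ _k ∈ A, G.card := Finset.sum_lt_sum_of_nonempty ⟨d c0, hd c0 hc0⟩ fun k hk => h1 k hk
        _ = A.card * G.card := by rw [Finset.sum_const, smul_eq_mul]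
        _ ≤ n * G.card := Nat.mul_le_mul_right _ hA
    exact lt_irrefl _ h3

end Pool.AD
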