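import Pool.Agent.Helper10.AD.Cells
import Pool.Agent.Helper10.HAM.Inst

/-! # The gadgets for Hamiltonicity -/

set_option autoImplicit false

namespace Pool.HAM

open Pool.AD

/-- Hamiltonicity is monotone -/
theorem hamP_mono {n : ℕ} (S S' : Finset (Sym2 (Fin n))) (h : S ⊆ S') (hS : HamP n S) :
    HamP n S' := by
  unfold HamP at hS ⊢
  refine SimpleGraph.IsHamiltonian.mono ?_ hS
  exact SimpleGraph.fromEdgeSet_mono (by exact_mod_cast h)

/-- Hamiltonicity has gadgets with bits -/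
theorem bits_ham {n D l B : ℕ} (hD : 1 ≤ D) (hB : 1 ≤ B) (hcd : 54 * (D * (l * B + 2 ^ l)) ≤ n) :
    BitsGadget (HamP n) D l B := by
  classical
  have hcd' : 3 * cd D l B ≤ n := by
    have := cd_le D l B
    omega
  refine ⟨Xv n hD hcd', Yv n hD hcd', Zv n hD hcd', inj_XY n hD hcd', ?_, ?_, ?_, ?_⟩
  · intro x hx
    unfold Zv at hx
    rw [Finset.mem_filter] at hx
    exact hx.2.1 ⟨x, rfl⟩
  · intro y hy
    unfold Zv at hy
    rw [Finset.mem_filter] at hy
    exact hy.2.2.1 ⟨y, rfl⟩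
  · intro c S hS hsub
    exact h1_ham n hD hcd' hB c S hS hsub
  · intro c
    exact h2_ham n hD hcd' hB c

end Pool.HAM
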