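import Pool.Agent.Helper10.AD.Cells
import Pool.Agent.Helper76.RT.CoreDet

/-!
# The machine for decision trees of zero tests
-/

set_option autoImplicit false
set_option linter.unusedSectionVars false

namespace Pool.AD

open Finset hiding sup
open MvPolynomial Pool.SDL Pool.Agent.SDet Pool.Agent.Helper76 Pool.Agent.Helper76.CDET Pool.GT
open Pool.RT (Pr Pr_eq)
open scoped ENNReal BigOperators

section
variable {V : Type} [DecidableEq V] [Fintype V] {J D l B : ℕ}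

/-- number of the cell of a block -/
def cl (b : Fin (J * D)) : Fin J := (finProdFinEquiv.symm b).1

theorem cl_mk (j : Fin J) (b : Fin D) : cl (finProdFinEquiv (j, b)) = j := by
  unfold cl
  simp

/-- the chain of inputs of a choice -/
def chain (X : ((Fin (J * D) × Bool) × Fin l) × (Bool × Fin B) → V)
    (Y : Fin (J * D) × (Fin l → Bool) × (Fin l → Bool) → V) (Z : Finset V) (c : Wd (J * D) l)
    (k : ℕ) : Finset V :=
  Z ∪ (Mw B c).image X ∪ (Yw c).image Y ∪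
    (Finset.univ.filter fun x : ((Fin (J * D) × Bool) × Fin l) × (Bool × Fin B) =>
      (cl x.1.1.1).1 < k).image X

theorem mem_chain (X : ((Fin (J * D) × Bool) × Fin l) × (Bool × Fin B) → V)
    (Y : Fin (J * D) × (Fin l → Bool) × (Fin l → Bool) → V) (Z : Finset V) (c : Wd (J * D) l)
    (k : ℕ) (e : V) : e ∈ chain X Y Z c k ↔ e ∈ Z ∨ (∃ x ∈ Mw B c, e = X x) ∨
      (∃ y ∈ Yw c, e = Y y) ∨ ∃ x, (cl x.1.1.1).1 < k ∧ e = X x := by
  unfold chain
  simp only [Finset.mem_union, Finset.mem_image, Finset.mem_filter, Finset.mem_univ, true_and]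
  constructor
  · rintro (((h | ⟨x, hx, rfl⟩) | ⟨y, hy, rfl⟩) | ⟨x, hx, rfl⟩)
    · exact Or.inl h
    · exact Or.inr (Or.inl ⟨x, hx, rfl⟩)
    · exact Or.inr (Or.inr (Or.inl ⟨y, hy, rfl⟩))
    · exact Or.inr (Or.inr (Or.inr ⟨x, hx, rfl⟩))
  · rintro (h | ⟨x, hx, rfl⟩ | ⟨y, hy, rfl⟩ | ⟨x, hx, rfl⟩)
    · exact Or.inl (Or.inl (Or.inl h))
    · exact Or.inl (Or.inl (Or.inr ⟨x, hx, rfl⟩))
    · exact Or.inl (Or.inr ⟨y, hy, rfl⟩)
    · exact Or.inr ⟨x, hx, rfl⟩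

theorem chain_mono (X : ((Fin (J * D) × Bool) × Fin l) × (Bool × Fin B) → V)
    (Y : Fin (J * D) × (Fin l → Bool) × (Fin l → Bool) → V) (Z : Finset V) (c : Wd (J * D) l)
    (k : ℕ) : chain X Y Z c k ⊆ chain X Y Z c (k + 1) := by
  intro e he
  rw [mem_chain] at he ⊢
  rcases he with h | h | h | ⟨x, hx, h⟩
  · exact Or.inl h
  · exact Or.inr (Or.inl h)
  · exact Or.inr (Or.inr (Or.inl h))
  · exact Or.inr (Or.inr (Or.inr ⟨x, by omega, h⟩))

/-- the element of the cell `j` in the gadget -/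
def xin (j : Fin J) (x : ((Fin D × Bool) × Fin l) × (Bool × Fin B)) :
    ((Fin (J * D) × Bool) × Fin l) × (Bool × Fin B) :=
  (((finProdFinEquiv (j, x.1.1.1), x.1.1.2), x.1.2), x.2)

def yin (j : Fin J) (y : Fin D × (Fin l → Bool) × (Fin l → Bool)) :
    Fin (J * D) × (Fin l → Bool) × (Fin l → Bool) := (finProdFinEquiv (j, y.1), y.2)

theorem xin_inj (j : Fin J) : Function.Injective (xin (D := D) (l := l) (B := B) j) := by
  rintro ⟨⟨⟨b, e⟩, i⟩, a⟩ ⟨⟨⟨b', e'⟩, i'⟩, a'⟩ h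
  simp only [xin, Prod.mk.injEq] at h
  obtain ⟨⟨⟨h1, h2⟩, h3⟩, h4⟩ := h
  have h5 := finProdFinEquiv.injective h1
  rw [Prod.mk.injEq] at h5
  rw [h5.2, h2, h3, h4]

theorem yin_inj (j : Fin J) : Function.Injective (yin (D := D) (l := l) j) := by
  rintro ⟨b, e⟩ ⟨b', e'⟩ h
  simp only [yin, Prod.mk.injEq] at h
  have h5 := finProdFinEquiv.injective h.1
  rw [Prod.mk.injEq] at h5
  rw [h5.2, h.2]

theorem cl_xin (j : Fin J) (x : ((Fin D × Bool) × Fin l) × (Bool × Fin B)) :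
    cl (xin j x).1.1.1 = j := cl_mk j _

theorem cl_yin (j : Fin J) (y : Fin D × (Fin l → Bool) × (Fin l → Bool)) :
    cl (yin j y).1 = j := cl_mk j _

theorem exists_xin (j : Fin J) (x : ((Fin (J * D) × Bool) × Fin l) × (Bool × Fin B))
    (h : cl x.1.1.1 = j) : ∃ x', x = xin j x' := by
  obtain ⟨⟨⟨b, e⟩, i⟩, a⟩ := x
  obtain ⟨⟨j', b'⟩, rfl⟩ := finProdFinEquiv.surjective b
  have h1 : j' = j := by rw [← h]; exact (cl_mk j' b').symm
  subst h1
  exact ⟨(((b', e), i), a), rfl⟩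

theorem exists_yin (j : Fin J) (y : Fin (J * D) × (Fin l → Bool) × (Fin l → Bool))
    (h : cl y.1 = j) : ∃ y', y = yin j y' := by
  obtain ⟨b, e⟩ := y
  obtain ⟨⟨j', b'⟩, rfl⟩ := finProdFinEquiv.surjective b
  have h1 : j' = j := by rw [← h]; exact (cl_mk j' b').symm
  subst h1
  exact ⟨(b', e), rfl⟩

theorem xin_mem (j : Fin J) (γ : Wd (J * D) l) (c : Wd D l)
    (x : ((Fin D × Bool) × Fin l) × (Bool × Fin B)) :
    xin j x ∈ Mw B (comb j γ c) ↔ x ∈ Mw B c := by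
  rw [mem_Mw, mem_Mw]
  unfold xin
  simp only
  rw [comb_in]

theorem yin_mem (j : Fin J) (γ : Wd (J * D) l) (c : Wd D l)
    (y : Fin D × (Fin l → Bool) × (Fin l → Bool)) :
    yin j y ∈ Yw (comb j γ c) ↔ y ∈ Yw c := by
  rw [mem_Yw, mem_Yw]
  constructor
  · rintro ⟨b, hb⟩
    obtain ⟨⟨j', b'⟩, rfl⟩ := finProdFinEquiv.surjective b
    have h1 : j' = j := by
      have h2 := congrArg (fun y => cl y.1) hb
      simp only [cl_yin, cl_mk] at h2
      exact h2.symm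
    subst h1
    refine ⟨b', ?_⟩
    simp only [yin, comb_in, Prod.mk.injEq] at hb
    have h5 := finProdFinEquiv.injective hb.1
    rw [Prod.mk.injEq] at h5
    obtain ⟨y1, y2⟩ := y
    simp only at h5 hb
    rw [h5.2, hb.2]
  · rintro ⟨b, rfl⟩
    refine ⟨finProdFinEquiv (j, b), ?_⟩
    simp only [yin, comb_in]

theorem mem_Mw_out (j : Fin J) (γ : Wd (J * D) l) (c : Wd D l)
    (x : ((Fin (J * D) × Bool) × Fin l) × (Bool × Fin B)) (hx : cl x.1.1.1 ≠ j) :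
    x ∈ Mw B (comb j γ c) ↔ x ∈ Mw B γ := by
  rw [mem_Mw, mem_Mw, comb_out _ _ _ _ hx]

theorem mem_Yw_out (j : Fin J) (γ : Wd (J * D) l) (c : Wd D l)
    (y : Fin (J * D) × (Fin l → Bool) × (Fin l → Bool)) (hy : cl y.1 ≠ j) :
    y ∈ Yw (comb j γ c) ↔ y ∈ Yw γ := by
  rw [mem_Yw, mem_Yw]
  constructor
  · rintro ⟨b, rfl⟩
    simp only at hy
    exact ⟨b, by rw [comb_out _ _ _ (b, false) hy, comb_out _ _ _ (b, true) hy]⟩
  · rintro ⟨b, rfl⟩
    simp only at hy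
    exact ⟨b, by rw [comb_out _ _ _ (b, false) hy, comb_out _ _ _ (b, true) hy]⟩

end

end Pool.AD
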