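import Pool.Agent.Helper10.AD.Main
import Pool.Agent.Helper10.AD.Cell
import Pool.Agent.Helper28.AD.Prod

/-!
# The machine for decision trees of zero tests: real numbers, sums of Pfaffians
-/

set_option autoImplicit false
set_option linter.unusedSectionVars false

namespace Pool.AD

open Finset hiding sup
open MvPolynomial Pool.SDL Pool.Agent.SDet Pool.Agent.Helper76 Pool.Agent.Helper76.CDET Pool.GT
open Pool.RT (Pr Pr_eq)
open scoped ENNReal BigOperators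

/-- from the extended to the real inequality -/
theorem real_of_ennreal {q a R : ℝ} (hq0 : 0 < q) (hR0 : 0 ≤ R) {l0 M h L τ : ℕ}
    (hmain : ENNReal.ofReal q ^ l0 * ENNReal.ofReal (a * 2 ^ M) ≤
      2 * ENNReal.ofReal R * (2 ^ h * ((L + 1) * ∑ j ∈ Finset.range τ, M.choose j) : ℕ)) :
    q ^ l0 * (a * 2 ^ M) ≤
      2 * (2 ^ h * R) * ((L + 1) * ∑ j ∈ Finset.range τ, (M.choose j : ℝ)) := by
  rcases le_or_gt a 0 with hneg | hpos
  · have h3 : q ^ l0 * (a * 2 ^ M) ≤ 0 :=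
      mul_nonpos_of_nonneg_of_nonpos (by positivity)
        (mul_nonpos_of_nonpos_of_nonneg hneg (by positivity))
    refine h3.trans ?_
    positivity
  · rw [← ENNReal.ofReal_pow hq0.le, ← ENNReal.ofReal_mul (by positivity)] at hmain
    have h4 : (2 * ENNReal.ofReal R * (2 ^ h * ((L + 1) * ∑ j ∈ Finset.range τ, M.choose j) : ℕ) :
        ℝ≥0∞) = ENNReal.ofReal (2 * (2 ^ h * R) * ((L + 1) * ∑ j ∈ Finset.range τ,
          (M.choose j : ℝ))) := by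
      have h5 : (2 * (2 ^ h * R) * ((L + 1) * ∑ j ∈ Finset.range τ, (M.choose j : ℝ))) =
          2 * R * ((2 ^ h * ((L + 1) * ∑ j ∈ Finset.range τ, M.choose j) : ℕ) : ℝ) := by
        push_cast
        ring
      rw [h5, ENNReal.ofReal_mul (by positivity), ENNReal.ofReal_mul (by norm_num),
        ENNReal.ofReal_natCast]
      congr 2
      simp
    rw [h4] at hmain
    exact (ENNReal.ofReal_le_ofReal_iff (by positivity)).1 hmain

section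
variable {F : Type} [Field F] {V Ya : Type} [DecidableEq V] [Fintype V]

theorem small_of_cls {N h : ℕ} (f : Fin N → MvPolynomial (V ⊕ Ya) F) {r m d ν : ℕ}
    (hr : 1 ≤ r) (hd : 1 ≤ d) (hf : ∀ v, IsPfSum r m d ν (f v)) (L : ℕ) (q : ℝ) (hq0 : 0 < q)
    (hq1 : q < 1) (U : Finset (Fin N)) (hU : U.card ≤ h) (D' : ℕ) (hD' : D' ≤ L) :
    Pool.RT.SmallK (∏ v ∈ U, f v) D' (h * ν + L * (d - 1)) (ENNReal.ofReal q)
      (ENNReal.ofReal (RP (r ^ h) (h * m) d L q)) :=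
  cls_pf hd _ (prod_class hr f U hU hf) L D' hD' q hq0 hq1

/-- THE INEQUALITY for random gadgets with cells, sums of Pfaffians -/
theorem adapt_cell_pf {I : Type} [Fintype I] (w : I → ℝ) (hw0 : ∀ i, 0 ≤ w i)
    (hw1 : ∑ i, w i = 1) {N h : ℕ} (t : I → DT N) (ht : ∀ i, (t i).depth ≤ h)
    (f : I → Fin N → MvPolynomial (V ⊕ Ya) F) {P : Finset V → Prop}
    {J D l B : ℕ} (hJ : 1 ≤ J) (hD : 1 ≤ D) (hl : 1 ≤ l) (hB : 1 ≤ B)
    (G : I → CellGadget P J D l B) (ε1 ε2 κ : ℝ)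
    (hyes : ∀ (c : Ch J D l) (j : ℕ), j ≤ J →
      Pr w (fun i => (t i).eval (ans (f i) ((G i).S c j)) = false) ≤ ε1)
    (hno : ∀ (c : Ch J D l) (j : Fin J), ∀ x ∈ Mw B (c j),
      Pr w (fun i => (t i).eval (ans (f i) ((G i).S c (j.1 + 1) \ {(G i).X j x})) = true) ≤ ε2)
    (ν' : I → Finset V → (V ⊕ Ya) →₀ ℕ)
    (hν : ∀ i S, ν' i S ∈ (∏ v ∈ (t i).ones (ans (f i) S), f i v).support ∧
      CDET.sup (ν' i S) ⊆ S)
    (L : ℕ) (hk : ∀ (c : Ch J D l) (j : Fin J),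
      Pr w (fun i => L < ∑ y, ν' i ((G i).S c j.1) (Sum.inl ((G i).Y j y))) ≤ κ)
    (β : ℝ) (hβ : 0 < β) (τ T0 : ℕ) (hτ : (T0 : ℝ) + β * (2 * D * l * B) ≤ τ * B)
    {r m d ν : ℕ} (hr : 1 ≤ r) (hd : 1 ≤ d) (hf : ∀ i v, IsPfSum r m d ν (f i v))
    (q : ℝ) (hq0 : 0 < q) (hq1 : q < 1) (hT0 : 2 ^ (2 * D * l) * q ^ T0 ≤ 1 / 2) :
    q ^ (h * ν + L * (d - 1)) * ((1 - (ε1 + ε2 / β + N / J + κ)) * 2 ^ (2 * D * l)) ≤
      2 * (2 ^ h * RP (r ^ h) (h * m) d L q) *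
        ((L + 1) * ∑ j ∈ Finset.range τ, ((2 * D * l).choose j : ℝ)) := by
  refine real_of_ennreal hq0 (RP_nonneg _ _ _ _ hq1) ?_
  refine adapt_cell w hw0 hw1 t ht f hJ hD hl hB G ε1 ε2 κ hyes hno ν' hν L hk β hβ τ T0 hτ
    (ofReal_lt_one hq1)
    (fun i U hU D' hD' => small_of_cls (f i) hr hd (hf i) L q hq0 hq1 U hU D' hD') ?_
  rw [← ENNReal.ofReal_pow hq0.le]
  have h3 : (2 : ℝ≥0∞) ^ (2 * D * l) = ENNReal.ofReal (2 ^ (2 * D * l)) := by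
    rw [ENNReal.ofReal_pow (by norm_num)]
    simp
  rw [h3, ← ENNReal.ofReal_mul (by positivity)]
  refine (ENNReal.ofReal_le_ofReal hT0).trans (le_of_eq ?_)
  rw [ENNReal.ofReal_div_of_pos (by norm_num)]
  simp

/-- THE INEQUALITY for gadgets with bits, sums of Pfaffians, bounded individual degrees -/
theorem adapt_bits_pf {Ω : Type} [Fintype Ω] (w : Ω → ℝ) (hw0 : ∀ i, 0 ≤ w i)
    (hw1 : ∑ i, w i = 1) {N h : ℕ} (t : Ω → DT N) (ht : ∀ ω, (t ω).depth ≤ h)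
    (f : Ω → Fin N → MvPolynomial (V ⊕ Ya) F)
    (P : Finset V → Prop) (hmono : ∀ S S' : Finset V, S ⊆ S' → P S → P S') (ε1 ε2 : ℝ)
    (hyes : ∀ S, P S → Pr w (fun ω => (t ω).eval (ans (f ω) S) = false) ≤ ε1)
    (hno : ∀ S, ¬ P S → Pr w (fun ω => (t ω).eval (ans (f ω) S) = true) ≤ ε2)
    {J D l B : ℕ} (hJ : 1 ≤ J) (hD : 1 ≤ D) (hl : 1 ≤ l) (hB : 1 ≤ B)
    (gad : BitsGadget P (J * D) l B)
    (lam L : ℕ) (hlam : ∀ ω v, ∀ μ ∈ (f ω v).support, ∀ e, μ (Sum.inl e) ≤ lam)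
    (hL : D * (lam * h) ≤ L)
    (β : ℝ) (hβ : 0 < β) (τ T0 : ℕ) (hτ : (T0 : ℝ) + β * (2 * D * l * B) ≤ τ * B)
    {r m d ν : ℕ} (hr : 1 ≤ r) (hd : 1 ≤ d) (hf : ∀ i v, IsPfSum r m d ν (f i v))
    (q : ℝ) (hq0 : 0 < q) (hq1 : q < 1) (hT0 : 2 ^ (2 * D * l) * q ^ T0 ≤ 1 / 2) :
    q ^ (h * ν + L * (d - 1)) * ((1 - (ε1 + ε2 / β + N / J)) * 2 ^ (2 * D * l)) ≤
      2 * (2 ^ h * RP (r ^ h) (h * m) d L q) *
        ((L + 1) * ∑ j ∈ Finset.range τ, ((2 * D * l).choose j : ℝ)) := by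
  refine real_of_ennreal hq0 (RP_nonneg _ _ _ _ hq1) ?_
  refine adapt_gen w hw0 hw1 t ht f P hmono ε1 ε2 hyes hno hJ hD hl hB gad lam L hlam hL
    β hβ τ T0 hτ (ofReal_lt_one hq1)
    (fun i U hU D' hD' => small_of_cls (f i) hr hd (hf i) L q hq0 hq1 U hU D' hD') ?_
  rw [← ENNReal.ofReal_pow hq0.le]
  have h3 : (2 : ℝ≥0∞) ^ (2 * D * l) = ENNReal.ofReal (2 ^ (2 * D * l)) := by
    rw [ENNReal.ofReal_pow (by norm_num)]
    simp
  rw [h3, ← ENNReal.ofReal_mul (by positivity)]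
  refine (ENNReal.ofReal_le_ofReal hT0).trans (le_of_eq ?_)
  rw [ENNReal.ofReal_div_of_pos (by norm_num)]
  simp

end

end Pool.AD
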